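import Pool.Agent.T6.H15.HY.Chain

/-!
# The chains for the powers of a variety
-/

set_option autoImplicit false

open MvPolynomial

namespace Pool.Agent.T6.H15.HY

open Pool.Agent.T6.H15.ZP Pool.Agent.T6.H15.MZ Pool.Agent.T6.H15.UE

section Power

variable {h : ℕ} {T : Type} [Fintype T]

/-- the power of `V` -/
def VT (T : Type) (V : Set (Fin h → ℂ)) : Set (T × Fin h → ℂ) := {x | ∀ t, (fun a => x (t, a)) ∈ V}

theorem exists_extend {V : Set (Fin h → ℂ)} (hV : V.Nonempty) (t : T) {v : Fin h → ℂ}
    (hv : v ∈ V) : ∃ x ∈ VT T V, (fun a => x (t, a)) = v :=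
  ⟨fun p => v p.2, fun _ => hv, rfl⟩

open Classical in
/-- replacing one copy -/
noncomputable def repl (x : T × Fin h → ℂ) (t : T) (v : Fin h → ℂ) : T × Fin h → ℂ :=
  fun p => if p.1 = t then v p.2 else x p

theorem repl_mem {V : Set (Fin h → ℂ)} {x : T × Fin h → ℂ} (hx : x ∈ VT T V) (t : T)
    {v : Fin h → ℂ} (hv : v ∈ V) : repl x t v ∈ VT T V := by
  intro t'
  by_cases ht : t' = t
  · have h1 : (fun a => repl x t v (t', a)) = v := by
      funext a
      unfold repl
      rw [if_pos ht]
    rw [h1]
    exact hv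
  · have h1 : (fun a => repl x t v (t', a)) = fun a => x (t', a) := by
      funext a
      unfold repl
      rw [if_neg ht]
    rw [h1]
    exact hx t'

theorem ncon_VT {V : Set (Fin h → ℂ)} (hVi : Irred V) (hVt : InTorus V)
    (hn : ∀ a : Fin h → ℤ, a ≠ 0 → ∀ c, ¬ IsConst V a c) (a : T × Fin h → ℤ) (c : ℂ)
    (hc : IsConst (VT T V) a c) : a = 0 := by
  classical
  obtain ⟨v0, hv0⟩ := hVi.nonempty
  have hx0 : (fun p : T × Fin h => v0 p.2) ∈ VT T V := fun _ => hv0
  by_contra hne
  have hex : ∃ t, (fun i => a (t, i)) ≠ 0 := by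
    by_contra hcon
    push Not at hcon
    apply hne
    funext p
    exact congrFun (hcon p.1) p.2
  obtain ⟨t, ht⟩ := hex
  set B : ℂ := ∏ p ∈ Finset.univ.filter (fun p : T × Fin h => p.1 ≠ t), v0 p.2 ^ a p with hB
  have hB0 : B ≠ 0 := Finset.prod_ne_zero_iff.2 fun p _ => zpow_ne_zero _ (hVt v0 hv0 p.2)
  refine hn _ ht (B⁻¹ * c) fun v hv => ?_
  have h1 := hc _ (repl_mem hx0 t hv)
  have h2 : chr (repl (fun p : T × Fin h => v0 p.2) t v) a = B * chr v (fun i => a (t, i)) := by
    unfold chr
    rw [← Finset.prod_filter_mul_prod_filter_not Finset.univ (fun p : T × Fin h => p.1 ≠ t)]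
    congr 1
    · refine Finset.prod_congr rfl fun p hp => ?_
      unfold repl
      rw [if_neg (Finset.mem_filter.1 hp).2]
    · refine Finset.prod_bij' (fun p _ => p.2) (fun i _ => (t, i)) ?_ ?_ ?_ ?_ ?_
      · intro p _
        exact Finset.mem_univ _
      · intro i _
        simp
      · intro p hp
        have h3 : p.1 = t := by simpa using (Finset.mem_filter.1 hp).2
        rw [← h3]
      · intro i _
        rfl
      · intro p hp
        have h3 : p.1 = t := by simpa using (Finset.mem_filter.1 hp).2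
        unfold repl
        rw [if_pos h3, ← h3]
  rw [h2] at h1
  rw [← h1, inv_mul_cancel_left₀ hB0]

/-- the coordinates in `s0` of all copies -/
abbrev Sg (T : Type) [Fintype T] (s0 : Finset (Fin h)) : Type :=
  {i : T × Fin h // i ∈ ((Finset.univ : Finset T) ×ˢ s0)}

/-- Independent coordinates of the power. -/
theorem indep_VT {V : Set (Fin h → ℂ)} {s0 : Finset (Fin h)} (hs : Indep V (fun i : s0 => (i : Fin h)))
    (hne : V.Nonempty) :
    Indep (VT T V) (fun i : ((Finset.univ : Finset T) ×ˢ s0 : Finset (T × Fin h)) =>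
      (i : T × Fin h)) := by
  classical
  intro p hp
  have hmem : ∀ (t : T) (i : s0), (t, (i : Fin h)) ∈ ((Finset.univ : Finset T) ×ˢ s0) :=
    fun t i => by simp
  have main : ∀ A : Finset T, ∀ z : Sg T s0 → ℂ, (∀ t ∉ A, ∃ v ∈ V, ∀ i : s0,
      z ⟨(t, i), hmem t i⟩ = v i) → eval z p = 0 := by
    intro A
    induction A using Finset.induction_on with
    | empty =>
      intro z hz
      have hz' := fun t => hz t (Finset.notMem_empty t)
      choose v hv hvz using hz'
      have h1 := hp (fun q => v q.1 q.2) (fun t => hv t)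
      have h2 : (fun i : Sg T s0 => (fun q : T × Fin h => v q.1 q.2) (i : T × Fin h)) = z := by
        funext ⟨⟨t, i⟩, hi⟩
        have hi' : i ∈ s0 := by simpa using hi
        exact (hvz t ⟨i, hi'⟩).symm
      rw [h2] at h1
      exact h1
    | insert t A ht ih =>
      intro z hz
      -- the polynomial in the coordinates of the copy `t`
      let q : MvPolynomial s0 ℂ := bind₁ (fun i : Sg T s0 => if (i : T × Fin h).1 = t then
        X ⟨(i : T × Fin h).2, (Finset.mem_product.1 i.2).2⟩ else C (z i)) p
      have hq : ∀ y : s0 → ℂ, eval y q = eval (fun i : Sg T s0 => if (i : T × Fin h).1 = t then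
          y ⟨(i : T × Fin h).2, (Finset.mem_product.1 i.2).2⟩ else z i) p := by
        intro y
        show eval y (bind₁ _ p) = _
        rw [← aeval_eq_eval, aeval_bind₁, ← aeval_eq_eval]
        congr 2
        funext i
        split_ifs
        · rw [aeval_X]
        · rw [aeval_eq_eval, eval_C]
      have h1 : q = 0 := by
        apply hs
        intro v hv
        rw [hq]
        apply ih
        intro t' ht'
        by_cases htt : t' = t
        · refine ⟨v, hv, fun i => ?_⟩
          rw [if_pos htt]
        · obtain ⟨v', hv', h2⟩ := hz t' (by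
            rw [Finset.mem_insert, not_or]
            exact ⟨htt, ht'⟩)
          refine ⟨v', hv', fun i => ?_⟩
          rw [if_neg htt]
          exact h2 i
      have h2 := hq fun i => z ⟨(t, i), hmem t i⟩
      rw [h1, map_zero] at h2
      have h3 : (fun i : Sg T s0 => if (i : T × Fin h).1 = t then
          (fun i : s0 => z ⟨(t, i), hmem t i⟩) ⟨(i : T × Fin h).2, (Finset.mem_product.1 i.2).2⟩
            else z i) = z := by
        funext ⟨⟨t', i⟩, hi⟩
        dsimp only
        split_ifs with h4
        · subst h4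
          rfl
        · rfl
      rw [h3] at h2
      exact h2.symm
  apply MvPolynomial.funext
  intro z
  rw [map_zero]
  exact main Finset.univ z fun t ht => absurd (Finset.mem_univ t) ht

/-- The power is the projection of the fibred power. -/
theorem VT_eq {e k : ℕ} {g : Fin e → ℂ} {V' : Set (Fin h → ℂ)} {ι' : Type} [Fintype ι']
    {β : Fin e → ι'} {copy : T → Fin h → ι'} {idx : ι' → Fin e ⊕ (T × Fin h)}
    {W : Set (ι' → ℂ)} (hP : UE.Pow k g V' β copy idx W) (hcl : ClosedT V') (hS : Split g V') :
    img (fun p : T × Fin h => copy p.1 p.2) W = VT T V' := by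
  ext x
  constructor
  · rintro ⟨w, hw, rfl⟩ t
    exact hP.copies w hw t
  · intro hx
    let p : ι' → ℂ := fun i => match idx i with
      | Sum.inl a => g a
      | Sum.inr b => x b
    have hpβ : ∀ i, p (β i) = g i := by
      intro i
      show (match idx (β i) with
        | Sum.inl a => g a
        | Sum.inr b => x b) = g i
      rw [hP.idxβ]
    have hpc : ∀ t a, p (copy t a) = x (t, a) := by
      intro t a
      show (match idx (copy t a) with
        | Sum.inl a => g a
        | Sum.inr b => x b) = x (t, a)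
      rw [hP.idxc]
    have hp0 : ∀ i, p i ≠ 0 := by
      intro i
      show (match idx i with
        | Sum.inl a => g a
        | Sum.inr b => x b) ≠ 0
      rcases idx i with a | ⟨t, a⟩
      · exact hS.gne a
      · exact hS.torus _ (hx t) a
    refine ⟨p, hP.closed hcl p hp0 (hP.closure p hpβ fun t => ?_), ?_⟩
    · apply subset_zcl
      have h1 : (fun a => p (copy t a)) = fun a => x (t, a) := funext fun a => hpc t a
      rw [h1]
      exact hx t
    · funext q
      exact hpc q.1 q.2

/-- Points of the power with many relations. -/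
theorem dense_VT {e k : ℕ} {g : Fin e → ℂ} {V' : Set (Fin h → ℂ)} {ι' : Type} [Fintype ι']
    {β : Fin e → ι'} {copy : T → Fin h → ι'} {idx : ι' → Fin e ⊕ (T × Fin h)}
    {W : Set (ι' → ℂ)} (hP : UE.Pow k g V' β copy idx W) (hcl : ClosedT V') (hS : Split g V')
    {F : MvPolynomial (T × Fin h) ℂ} (hF : F ∉ idealOf (VT T V')) :
    ∃ w ∈ VT T V', eval w F ≠ 0 ∧ ∃ Λ : Submodule ℤ (T × Fin h → ℤ), TorsOn {w} Λ ∧
      dim (VT T V') + k ≤ Module.finrank ℤ Λ + e := by
  classical
  set cop : T × Fin h → ι' := fun p => copy p.1 p.2 with hcop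
  have heq := VT_eq hP hcl hS
  rw [← heq, mem_idealOf_img] at hF
  obtain ⟨x, hx, hxF, Λ', hΛ', hdim⟩ := dense_points hP.pow.torus (hP.closed hcl) hP.pow.dense hF
  rw [eval_rename] at hxF
  let ext : (T × Fin h → ℤ) →ₗ[ℤ] (ι' → ℤ) :=
    Fintype.linearCombination ℤ fun p => Pi.single (cop p) (1 : ℤ)
  have hext : ∀ a, chr x (ext a) = chr (fun p => x (cop p)) a := by
    intro a
    have h3 : ext a = ∑ p, a p • Pi.single (cop p) (1 : ℤ) :=
      Fintype.linearCombination_apply _ _ _
    rw [h3, chr_sum (hP.pow.torus x hx)]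
    show _ = ∏ p, x (cop p) ^ a p
    refine Finset.prod_congr rfl fun p _ => ?_
    rw [chr_zsmul, chr_single]
  refine ⟨fun p => x (cop p), ?_, hxF, Λ'.comap ext, ?_, ?_⟩
  · rw [← heq]
    exact ⟨x, hx, rfl⟩
  · intro a ha
    obtain ⟨c, hc, h1⟩ := hΛ' _ ha
    refine ⟨c, hc, ?_⟩
    rintro y hy
    rw [Set.mem_singleton_iff.1 hy, ← hext]
    exact h1 x rfl
  · have h1 := finrank_comap ext Λ'
    have h2 : dim (VT T V') ≤ dim W := by
      rw [← heq]
      exact dim_img_le hP.pow.irred
    have h3 := hP.pow.card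
    have h4 : Fintype.card (T × Fin h) = k * h := by
      rw [Fintype.card_prod, Fintype.card_fin, hP.cardT]
    omega

end Power

end Pool.Agent.T6.H15.HY
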