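import Pool.Agent.T6.H15.HY.Pts

/-!
# Equations with a minimal number of terms
-/

set_option autoImplicit false

open MvPolynomial

namespace Pool.Agent.T6.H15.HY

open Pool.Agent.T6.H15.ZP Pool.Agent.T6.H15.MZ Pool.Agent.T6.H15.UE

section

variable {τ : Type} [Fintype τ]

/-- An equation with the minimal number of terms. -/
theorem exists_min {X : Set (τ → ℂ)} (hX : Irred X) (ht : InTorus X)
    (hne : ∃ p : MvPolynomial τ ℂ, p ∈ idealOf X ∧ p ≠ 0) :
    ∃ (N : ℕ) (m : ℕ → (τ →₀ ℕ)) (a : ℕ → ℂ), 2 ≤ N ∧ (∀ l, a l ≠ 0) ∧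
      (∑ j ∈ Finset.range N, monomial (m j) (a j)) ∈ idealOf X ∧
      (∑ j ∈ Finset.range N, monomial (m j) (a j)) ≠ 0 ∧
      ∀ l l', l < l' → l' < N → (∑ j ∈ Finset.Ico l l', monomial (m j) (a j)) ∉ idealOf X := by
  classical
  have hex : ∃ n, ∃ p : MvPolynomial τ ℂ, (p ∈ idealOf X ∧ p ≠ 0) ∧ p.support.card = n := by
    obtain ⟨p, hp⟩ := hne
    exact ⟨_, p, hp, rfl⟩
  obtain ⟨p, ⟨hpX, hp0⟩, hcard⟩ := Nat.find_spec hex
  have hmin : ∀ q : MvPolynomial τ ℂ, q ∈ idealOf X → q ≠ 0 → p.support.card ≤ q.support.card := by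
    intro q hq hq0
    rw [hcard]
    exact Nat.find_min' hex ⟨q, ⟨hq, hq0⟩, rfl⟩
  set N := p.support.card with hN
  let e := p.support.equivFin
  set m : ℕ → (τ →₀ ℕ) := fun l => if hl : l < N then (e.symm ⟨l, hl⟩ : τ →₀ ℕ) else 0 with hm
  set a : ℕ → ℂ := fun l => if hl : l < N then coeff (e.symm ⟨l, hl⟩ : τ →₀ ℕ) p else 1 with ha
  have hmj : ∀ j : Fin N, m j = (e.symm j : τ →₀ ℕ) := by
    intro j
    simp only [hm, j.2, dif_pos]
    rfl
  have haj : ∀ j : Fin N, a j = coeff (e.symm j : τ →₀ ℕ) p := by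
    intro j
    simp only [ha, j.2, dif_pos]
    rfl
  have hsum : ∑ j ∈ Finset.range N, monomial (m j) (a j) = p := by
    rw [Finset.sum_range]
    rw [Finset.sum_congr rfl fun j _ => by rw [hmj j, haj j]]
    have h5 : ∑ j : Fin N, monomial (e.symm j : τ →₀ ℕ) (coeff (e.symm j : τ →₀ ℕ) p) =
        ∑ v : p.support, monomial (v : τ →₀ ℕ) (coeff (v : τ →₀ ℕ) p) :=
      Equiv.sum_comp e.symm (fun v : p.support => monomial (v : τ →₀ ℕ) (coeff (v : τ →₀ ℕ) p))
    rw [h5, Finset.sum_coe_sort p.support fun v => monomial v (coeff v p)]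
    exact support_sum_monomial_coeff p
  have ha0 : ∀ l, a l ≠ 0 := by
    intro l
    simp only [ha]
    split_ifs with h1
    · exact mem_support_iff.1 (e.symm ⟨l, h1⟩).2
    · exact one_ne_zero
  have hminj : ∀ l l', l < N → l' < N → m l = m l' → l = l' := by
    intro l l' hl hl' h1
    have h2 := hmj ⟨l, hl⟩
    have h3 := hmj ⟨l', hl'⟩
    dsimp only at h2 h3
    rw [h2, h3] at h1
    have h4 := e.symm.injective (Subtype.ext h1)
    exact congrArg Fin.val h4
  have hN1 : N ≠ 0 := by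
    intro h0
    rw [hN, Finset.card_eq_zero, support_eq_empty] at h0
    exact hp0 h0
  have hN2 : N ≠ 1 := by
    intro h0
    rw [h0, Finset.sum_range_one] at hsum
    obtain ⟨x, hx⟩ := hX.nonempty
    have h1 := mem_idealOf.1 hpX x hx
    rw [← hsum] at h1
    exact eval_mono_ne (ht x hx) (ha0 0) (m 0) h1
  refine ⟨N, m, a, by omega, ha0, by rw [hsum]; exact hpX, by rw [hsum]; exact hp0, ?_⟩
  intro l l' hl hl' hmem
  set q : MvPolynomial τ ℂ := ∑ j ∈ Finset.Ico l l', monomial (m j) (a j) with hq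
  have hq0 : q ≠ 0 := by
    intro h0
    have h1 : coeff (m l) q = a l := by
      rw [hq, coeff_sum, Finset.sum_eq_single l]
      · rw [coeff_monomial, if_pos rfl]
      · intro j hj hjl
        rw [Finset.mem_Ico] at hj
        rw [coeff_monomial, if_neg]
        intro h2
        exact hjl (hminj j l (by omega) (by omega) h2)
      · intro h2
        exact absurd (Finset.mem_Ico.2 ⟨le_rfl, hl⟩) h2
    rw [h0, coeff_zero] at h1
    exact ha0 l h1.symm
  have h1 := hmin q hmem hq0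
  have h2 : q.support ⊆ (Finset.Ico l l').image m := by
    intro v hv
    rw [mem_support_iff, hq, coeff_sum] at hv
    obtain ⟨j, hj, hj0⟩ := Finset.exists_ne_zero_of_sum_ne_zero hv
    rw [coeff_monomial] at hj0
    rw [Finset.mem_image]
    refine ⟨j, hj, ?_⟩
    by_contra h3
    exact hj0 (if_neg h3)
  have h3 := (Finset.card_le_card h2).trans Finset.card_image_le
  rw [Nat.card_Ico] at h3
  omega

/-- the sums of a chain -/
noncomputable def cs (d : ℂ) (m : ℕ → (τ →₀ ℕ)) (a : ℕ → ℂ) (ζ : ℂ) (l : ℕ) : MvPolynomial τ ℂ :=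
  ∑ j ∈ Finset.range l, (monomial (m j) (a j) + C (d * ζ ^ j))

theorem cs_scale (d : ℂ) (m : ℕ → (τ →₀ ℕ)) (a : ℕ → ℂ) (ζ t : ℂ) (l : ℕ) :
    cs d m (fun j => t * a j) ζ l = C t * ∑ j ∈ Finset.range l, monomial (m j) (a j) +
      C (d * ∑ j ∈ Finset.range l, ζ ^ j) := by
  unfold cs
  rw [Finset.sum_add_distrib, Finset.mul_sum, Finset.mul_sum, map_sum]
  congr 1
  refine Finset.sum_congr rfl fun j _ => ?_
  rw [C_mul_monomial]

theorem finite_bad {X : Set (τ → ℂ)} (hX : Irred X) {q : MvPolynomial τ ℂ} (hq : q ∉ idealOf X)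
    (c : ℂ) : {t : ℂ | C t * q + C c ∈ idealOf X}.Finite := by
  apply Set.Subsingleton.finite
  intro t ht t' ht'
  rw [Set.mem_ofPred_eq, mem_idealOf] at ht ht'
  obtain ⟨x, hx, h0⟩ := exists_of_not_mem hq
  have h1 := ht x hx
  have h2 := ht' x hx
  rw [map_add, map_mul, eval_C, eval_C] at h1 h2
  have h3 : (t - t') * eval x q = 0 := by linear_combination h1 - h2
  exact sub_eq_zero.1 ((mul_eq_zero.1 h3).resolve_right h0)

/-- A closed chain for an equation with the minimal number of terms. -/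
theorem exists_chain {X : Set (τ → ℂ)} (hX : Irred X) (ht : InTorus X)
    (hne : ∃ p : MvPolynomial τ ℂ, p ∈ idealOf X ∧ p ≠ 0) (d : ℂ) {κ : ℂ} (hκ : κ ≠ 0) :
    ∃ (N : ℕ) (m : ℕ → (τ →₀ ℕ)) (a : ℕ → ℂ) (ζ : ℂ), 0 < N ∧ (∀ l, a l ≠ 0) ∧ RootU ζ ∧
      cs d m a ζ N ∈ idealOf X ∧ cs d m a ζ N ≠ 0 ∧
      (∀ l l', l < l' → l' < N → cs d m a ζ l' - cs d m a ζ l ∉ idealOf X) ∧
      ∀ l, l < N → cs d m a ζ l + C κ ∉ idealOf X := by
  classical
  obtain ⟨N, m, a, hN, ha, h1, h2, h3⟩ := exists_min hX ht hne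
  have hζ := Complex.isPrimitiveRoot_exp N (by omega)
  set ζ := Complex.exp (2 * Real.pi * Complex.I / N) with hζdef
  have hfin : (({0} ∪ ⋃ l ∈ Set.Iio N, ⋃ l' ∈ Set.Iio N, {t : ℂ | l < l' ∧
      C t * ∑ j ∈ Finset.Ico l l', monomial (m j) (a j) +
        C (d * ∑ j ∈ Finset.Ico l l', ζ ^ j) ∈ idealOf X}) ∪ ⋃ l ∈ Set.Iio N, {t : ℂ | 0 < l ∧
      C t * ∑ j ∈ Finset.Ico 0 l, monomial (m j) (a j) +
        C (d * ∑ j ∈ Finset.Ico 0 l, ζ ^ j + κ) ∈ idealOf X} : Set ℂ).Finite := by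
    refine ((Set.finite_singleton _).union ?_).union ?_
    · refine (Set.finite_Iio N).biUnion fun l hl => (Set.finite_Iio N).biUnion fun l' hl' => ?_
      by_cases hll : l < l'
      · refine (finite_bad hX (h3 l l' hll hl') (d * ∑ j ∈ Finset.Ico l l', ζ ^ j)).subset ?_
        exact fun t ht => ht.2
      · convert Set.finite_empty
        ext t
        simp [hll]
    · refine (Set.finite_Iio N).biUnion fun l hl => ?_
      by_cases hll : 0 < l
      · refine (finite_bad hX (h3 0 l hll hl) (d * ∑ j ∈ Finset.Ico 0 l, ζ ^ j + κ)).subset ?_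
        exact fun t ht => ht.2
      · convert Set.finite_empty
        ext t
        simp [hll]
  obtain ⟨t, ht'⟩ := hfin.infinite_compl.nonempty
  simp only [Set.mem_compl_iff, Set.mem_union, Set.mem_singleton_iff, Set.mem_iUnion,
    Set.mem_Iio, Set.mem_ofPred_eq, not_or, not_exists, not_and] at ht'
  obtain ⟨⟨ht0, ht1⟩, ht2⟩ := ht'
  have hgeom : ∑ j ∈ Finset.range N, ζ ^ j = 0 := hζ.geom_sum_eq_zero (by omega)
  refine ⟨N, m, fun j => t * a j, ζ, by omega, fun l => mul_ne_zero ht0 (ha l),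
    ⟨N, by omega, hζ.pow_eq_one⟩, ?_, ?_, ?_, ?_⟩
  · rw [cs_scale, hgeom, mul_zero, C_0, add_zero]
    exact Ideal.mul_mem_left _ _ h1
  · rw [cs_scale, hgeom, mul_zero, C_0, add_zero]
    exact mul_ne_zero (by rwa [Ne, C_eq_zero]) h2
  · intro l l' hl hl' hmem
    refine ht1 l (by omega) l' hl' hl ?_
    rw [cs_scale, cs_scale] at hmem
    rw [Finset.sum_Ico_eq_sub _ hl.le, Finset.sum_Ico_eq_sub _ hl.le]
    convert hmem using 1
    rw [mul_sub, mul_sub, C_sub]
    ring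
  · intro l hl hmem
    rcases Nat.eq_zero_or_pos l with rfl | hpos
    · obtain ⟨x, hx⟩ := hX.nonempty
      have h4 := mem_idealOf.1 hmem x hx
      rw [map_add, eval_C] at h4
      apply hκ
      simpa [cs] using h4
    · refine ht2 l hl hpos ?_
      rw [cs_scale] at hmem
      rw [Finset.range_eq_Ico] at hmem
      convert hmem using 1
      rw [C_add]
      ring

end

end Pool.Agent.T6.H15.HY
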