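import Pool.Agent.T6.H15.HY.Build

/-!
# The chains for the powers of a variety: the data
-/

set_option autoImplicit false

open MvPolynomial

namespace Pool.Agent.T6.H15.HY

open Pool.Agent.T6.H15.ZP Pool.Agent.T6.H15.MZ Pool.Agent.T6.H15.UE

section

variable {h : ℕ} {σ : Type} [Fintype σ] [DecidableEq σ]

/-- the dependent coordinates -/
abbrev Bt (s0 : Finset (Fin h)) : Type := {b : Fin h // b ∉ s0}

/-- the variables of the equation of a dependent coordinate -/
def vb {s0 : Finset (Fin h)} (b : Fin h) : Option s0 → Fin h := fun o => o.elim b fun a => (a : Fin h)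

/-- closed chains for one copy -/
structure Cop (H : Hp σ) (V : Set (Fin h → ℂ)) (s0 : Finset (Fin h)) where
  N : Bt s0 → ℕ
  m : Bt s0 → ℕ → (Option s0 →₀ ℕ)
  a : Bt s0 → ℕ → ℂ
  ze : Bt s0 → ℂ
  hN : ∀ b, 0 < N b
  ha : ∀ b l, a b l ≠ 0
  hze : ∀ b, RootU (ze b)
  hcl : ∀ b : Bt s0, cs H.del (m b) (a b) (ze b) (N b) ∈ idealOf (img (vb (b : Fin h)) V)
  hne : ∀ b, cs H.del (m b) (a b) (ze b) (N b) ≠ 0
  hd : ∀ (b : Bt s0) (l l' : ℕ), l < l' → l' < N b → cs H.del (m b) (a b) (ze b) l' -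
    cs H.del (m b) (a b) (ze b) l ∉ idealOf (img (vb (b : Fin h)) V)
  h1 : ∀ (b : Bt s0) (l : ℕ), l < N b → cs H.del (m b) (a b) (ze b) l + C H.kap ∉
    idealOf (img (vb (b : Fin h)) V)

theorem exists_cop (H : Hp σ) {V : Set (Fin h → ℂ)} {s0 : Finset (Fin h)} (hV : Irred V)
    (ht : InTorus V) (hsc : s0.card = dim V) : Nonempty (Cop H V s0) := by
  classical
  have hb : ∀ b : Bt s0, ∃ (N : ℕ) (m : ℕ → (Option s0 →₀ ℕ)) (a : ℕ → ℂ) (ζ : ℂ), 0 < N ∧
      (∀ l, a l ≠ 0) ∧ RootU ζ ∧ cs H.del m a ζ N ∈ idealOf (img (vb (b : Fin h)) V) ∧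
      cs H.del m a ζ N ≠ 0 ∧
      (∀ l l', l < l' → l' < N → cs H.del m a ζ l' - cs H.del m a ζ l ∉
        idealOf (img (vb (b : Fin h)) V)) ∧
      ∀ l, l < N → cs H.del m a ζ l + C H.kap ∉ idealOf (img (vb (b : Fin h)) V) := by
    intro b
    apply exists_chain (irred_img hV)
    · rintro _ ⟨v, hv, rfl⟩ i
      exact ht v hv _
    · by_contra hcon
      push Not at hcon
      have h2 : Indep V (vb (s0 := s0) (b : Fin h)) := by
        intro p hp
        apply hcon
        rw [mem_idealOf]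
        rintro _ ⟨v, hv, rfl⟩
        exact hp v hv
      have h3 := h2.card_le hV
      rw [Fintype.card_option, Fintype.card_coe, hsc] at h3
      omega
    · exact H.kap_ne
  choose N m a ζ h1 h2 h3 h4 h5 h6 h7 using hb
  exact ⟨⟨N, m, a, ζ, h1, h2, h3, h4, h5, h6, h7⟩⟩

variable {H : Hp σ} {V : Set (Fin h → ℂ)} {s0 : Finset (Fin h)}

/-- the chains -/
abbrev Chn (s0 : Finset (Fin h)) (T : Type) (j : ℕ) : Type := (T × (Fin h ⊕ Bt s0)) ⊕ Fin j

/-- the variables of the equation of a dependent coordinate in a copy -/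
def vt {T : Type} (t : T) (b : Fin h) : Option s0 → T × Fin h := fun o => (t, vb b o)

/-- the data -/
noncomputable def dat (cop : Cop H V s0) (T : Type) (j : ℕ) : Dat (T × Fin h) (Chn s0 T j) where
  M c := match c with
    | Sum.inl (_, Sum.inl _) => 1
    | Sum.inl (_, Sum.inr b) => cop.N b
    | Sum.inr _ => 0
  L c := match c with
    | Sum.inl (_, Sum.inl _) => 1
    | Sum.inl (_, Sum.inr b) => cop.N b - 1
    | Sum.inr _ => 0
  m c := match c with
    | Sum.inl (t, Sum.inl i) => fun _ => Finsupp.single (t, i) 1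
    | Sum.inl (t, Sum.inr b) => fun l => (cop.m b l).mapDomain (vt t (b : Fin h))
    | Sum.inr _ => fun _ => 0
  a c := match c with
    | Sum.inl (_, Sum.inl _) => fun _ => 1
    | Sum.inl (_, Sum.inr b) => cop.a b
    | Sum.inr _ => fun _ => 1
  ze c := match c with
    | Sum.inl (_, Sum.inl _) => 1
    | Sum.inl (_, Sum.inr b) => cop.ze b
    | Sum.inr _ => 1
  vis p := Sum.inl (p.1, Sum.inl p.2)

section

variable {T : Type} [Fintype T] (cop : Cop H V s0) (j : ℕ)

theorem ps_b (t : T) (b : Bt s0) (l : ℕ) : (dat cop T j).ps H (Sum.inl (t, Sum.inr b)) l =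
    rename (vt t (b : Fin h)) (cs H.del (cop.m b) (cop.a b) (cop.ze b) l) := by
  unfold Dat.ps cs
  rw [map_sum]
  refine Finset.sum_congr rfl fun i _ => ?_
  rw [map_add, rename_monomial, rename_C]
  rfl

theorem img_vt (hV : Irred V) (t : T) (b : Fin h) :
    img (vt (s0 := s0) t b) (VT T V) = img (vb b) V := by
  ext y
  constructor
  · rintro ⟨x, hx, rfl⟩
    exact ⟨_, hx t, rfl⟩
  · rintro ⟨v, hv, rfl⟩
    obtain ⟨x, hx, h1⟩ := exists_extend hV.nonempty t hv
    exact ⟨x, hx, by rw [← h1]; rfl⟩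

theorem mem_vt (hV : Irred V) (t : T) (b : Fin h) (q : MvPolynomial (Option s0) ℂ) :
    rename (vt t b) q ∈ idealOf (VT T V) ↔ q ∈ idealOf (img (vb b) V) := by
  rw [← img_vt hV t b, mem_idealOf_img]

theorem ps_x (t : T) (i : Fin h) : (dat cop T j).ps H (Sum.inl (t, Sum.inl i)) 1 =
    X (t, i) + C H.del := by
  unfold Dat.ps
  rw [Finset.sum_range_one, pow_zero, mul_one]
  rfl

theorem X_add_not_mem (hV : Irred V) (hn : ∀ a : Fin h → ℤ, a ≠ 0 → ∀ c, ¬ IsConst V a c)
    (t : T) (i : Fin h) (d : ℂ) : (X (t, i) + C d : MvPolynomial (T × Fin h) ℂ) ∉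
      idealOf (VT T V) := by
  classical
  intro hmem
  refine hn (Pi.single i 1) ?_ (-d) fun v hv => ?_
  · intro h0
    have h1 := congrFun h0 i
    rw [Pi.single_eq_same] at h1
    exact one_ne_zero h1
  · rw [chr_single]
    obtain ⟨x, hx, h1⟩ := exists_extend hV.nonempty t hv
    have h2 := mem_idealOf.1 hmem x hx
    rw [map_add, eval_X, eval_C] at h2
    rw [← h1]
    linear_combination h2

/-- **The chains have all the properties.** -/
theorem sys_dat (hV : Irred V) (ht : InTorus V)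
    (hn : ∀ a : Fin h → ℤ, a ≠ 0 → ∀ c, ¬ IsConst V a c)
    (hs : Indep V (fun i : s0 => (i : Fin h))) (hirr : Irred (VT T V)) :
    Sys H (dat cop T j) (VT T V) ((Finset.univ : Finset T) ×ˢ s0) where
  irr := hirr
  tor := fun x hx p => ht _ (hx p.1) p.2
  ncon := ncon_VT hV ht hn
  ind := indep_VT hs hV.nonempty
  ha := by
    rintro (⟨t, i | b⟩ | q) l
    · exact one_ne_zero
    · exact cop.ha b l
    · exact one_ne_zero
  hze := by
    rintro (⟨t, i | b⟩ | q)
    · exact RootU.one
    · exact cop.hze b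
    · exact RootU.one
  hcl := by
    rintro (⟨t, i | b⟩ | q)
    · exact Or.inl rfl
    · right
      constructor
      · exact Nat.sub_add_cancel (cop.hN b)
      · rw [ps_b, mem_vt hV]
        exact cop.hcl b
    · exact Or.inl rfl
  hdist := by
    rintro (⟨t, i | b⟩ | q) l l' hl hl'
    · have hl1 : l' ≤ 1 := hl'
      obtain rfl : l = 0 := by omega
      obtain rfl : l' = 1 := by omega
      rw [ps_x, ps_zero, sub_zero]
      exact X_add_not_mem hV hn t i _
    · have hl1 : l' ≤ cop.N b - 1 := hl'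
      rw [ps_b, ps_b, ← map_sub, mem_vt hV]
      exact cop.hd b l l' hl (by have := cop.hN b; omega)
    · have hl1 : l' ≤ 0 := hl'
      omega
  hone := by
    have h0 : C H.kap ∉ idealOf (VT T V) := by
      obtain ⟨x, hx⟩ := hirr.nonempty
      exact not_mem_of_eval hx (by rw [eval_C]; exact H.kap_ne)
    rintro (⟨t, i | b⟩ | q) l hl
    · have hl1 : l ≤ 1 := hl
      rcases Nat.eq_zero_or_pos l with rfl | hpos
      · rw [ps_zero, zero_add]
        exact h0
      · obtain rfl : l = 1 := by omega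
        rw [ps_x, add_assoc, ← C_add]
        exact X_add_not_mem hV hn t i _
    · have hl1 : l ≤ cop.N b - 1 := hl
      have h2 : (C H.kap : MvPolynomial (T × Fin h) ℂ) = rename (vt (s0 := s0) t (b : Fin h)) (C H.kap) := by
        rw [rename_C]
      rw [ps_b, h2, ← map_add, mem_vt hV]
      exact cop.h1 b l (by have := cop.hN b; omega)
    · have hl1 : l ≤ 0 := hl
      obtain rfl : l = 0 := by omega
      rw [ps_zero, zero_add]
      exact h0
  vM := fun p => Nat.one_pos
  vm := fun p => rfl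
  va := fun p => rfl
  dep := by
    rintro ⟨t, b⟩ hb
    have hb' : b ∉ s0 := by simpa using hb
    refine ⟨Sum.inl (t, Sum.inr ⟨b, hb'⟩), Nat.sub_add_cancel (cop.hN _), ?_⟩
    let f : Option s0 → Option ((Finset.univ : Finset T) ×ˢ s0 : Finset (T × Fin h)) :=
      Option.map fun a => ⟨(t, (a : Fin h)), by simp⟩
    have hf : Function.Injective f := by
      apply Option.map_injective
      intro a a' haa
      have h1 := congrArg (fun x => (Subtype.val x).2) haa
      exact Subtype.ext h1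
    refine ⟨rename f (cs H.del (cop.m ⟨b, hb'⟩) (cop.a ⟨b, hb'⟩) (cop.ze ⟨b, hb'⟩)
      (cop.N ⟨b, hb'⟩)), ?_, ?_⟩
    · intro h0
      apply cop.hne ⟨b, hb'⟩
      exact (map_eq_zero_iff _ (rename_injective f hf)).1 h0
    · have h1 : (dat cop T j).M (Sum.inl (t, Sum.inr ⟨b, hb'⟩)) = cop.N ⟨b, hb'⟩ := rfl
      rw [h1, ps_b, rename_rename]
      congr 1
      congr 1
      funext o
      rcases o with - | o <;> rfl
  card := by
    have hM : ∑ c, (dat cop T j).M c = Fintype.card T * (h + ∑ b, cop.N b) := by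
      rw [Fintype.sum_sum_type, Fintype.sum_prod_type]
      simp only [Fintype.sum_sum_type]
      show ∑ _t : T, (∑ _i : Fin h, 1 + ∑ b, cop.N b) + ∑ _q : Fin j, 0 = _
      simp
    have hL : ∑ c, (dat cop T j).L c = Fintype.card T * (h + ∑ b, (cop.N b - 1)) := by
      rw [Fintype.sum_sum_type, Fintype.sum_prod_type]
      simp only [Fintype.sum_sum_type]
      show ∑ _t : T, (∑ _i : Fin h, 1 + ∑ b, (cop.N b - 1)) + ∑ _q : Fin j, 0 = _
      simp
    have hS : ∑ b, cop.N b = ∑ b, (cop.N b - 1) + Fintype.card (Bt s0) := by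
      have h1 : ∀ b, cop.N b = (cop.N b - 1) + 1 := fun b => (Nat.sub_add_cancel (cop.hN b)).symm
      calc ∑ b, cop.N b = ∑ b, ((cop.N b - 1) + 1) := Finset.sum_congr rfl fun b _ => h1 b
        _ = _ := by
          rw [Finset.sum_add_distrib, Finset.sum_const, Finset.card_univ, smul_eq_mul, mul_one]
    have hB : Fintype.card (Bt s0) + s0.card = h := by
      have h1 : Fintype.card (Bt s0) = Fintype.card (Fin h) - s0.card := by
        rw [Fintype.card_subtype_compl]
        simp
      have h2 := Finset.card_le_univ s0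
      rw [Fintype.card_fin] at h1 h2
      omega
    rw [hM, hL, Finset.card_product, Finset.card_univ, Fintype.card_prod, Fintype.card_fin, hS,
      ← mul_add, ← mul_add]
    congr 1
    omega

theorem card_gates : Fintype.card (Gi (dat cop T j)) =
    Fintype.card T * (h + Fintype.card (Bt s0) + (h + ∑ b, cop.N b)) + j := by
  have hM : ∑ c, (dat cop T j).M c = Fintype.card T * (h + ∑ b, cop.N b) := by
    rw [Fintype.sum_sum_type, Fintype.sum_prod_type]
    simp only [Fintype.sum_sum_type]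
    show ∑ _t : T, (∑ _i : Fin h, 1 + ∑ b, cop.N b) + ∑ _q : Fin j, 0 = _
    simp
  rw [card_Gi, hM, Fintype.card_sum, Fintype.card_prod, Fintype.card_sum, Fintype.card_fin,
    Fintype.card_fin]
  ring

/-- the coefficients -/
noncomputable def coef : Unit ⊕ (Σ b : Bt s0, Fin (cop.N b)) → ℂ
  | Sum.inl _ => 1
  | Sum.inr ⟨b, l⟩ => cop.a b l

theorem coef_ne (x : Unit ⊕ (Σ b : Bt s0, Fin (cop.N b))) : coef cop x ≠ 0 := by
  rcases x with u | ⟨b, l⟩
  · exact one_ne_zero
  · exact cop.ha b l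

theorem exists_coef (c : Chn s0 T j) (l : Fin ((dat cop T j).M c)) :
    ∃ x, (dat cop T j).a c l = coef cop x := by
  rcases c with ⟨t, i | b⟩ | q
  · exact ⟨Sum.inl (), rfl⟩
  · exact ⟨Sum.inr ⟨b, l⟩, rfl⟩
  · exact l.elim0

theorem card_coef : Fintype.card (Unit ⊕ (Σ b : Bt s0, Fin (cop.N b))) = 1 + ∑ b, cop.N b := by
  rw [Fintype.card_sum, Fintype.card_unit, Fintype.card_sigma]
  simp only [Fintype.card_fin]

end

end

end Pool.Agent.T6.H15.HY
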