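import Pool.Agent.T6.H15.HY.Lit
import Pool.Agent.T6.H15.ZP.Check

/-!
# Zilber's conjecture and the powers of one hyperplane: the theorem
-/

set_option autoImplicit false

open MvPolynomial

namespace Pool.Agent.T6.H15.HY

open Pool.Agent.T6.H15.ZP Pool.Agent.T6.H15.MZ Pool.Agent.T6.H15.UE

/-- **Main theorem.** -/
theorem main' {m : ℕ} (hm : 2 ≤ m) {a : Fin m → ℂ} (ha : ∀ i, a i ≠ 0) : List.TFAE [
    ∀ n, Zilber n,
    ∀ K : ℕ, FinMax (hyper a (Fin K)),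
    ∀ N : ℕ, ∃ K, N ≤ K ∧ FinMax (hyper a (Fin K)),
    ∀ ε : ℝ, 0 < ε → ∀ N : ℕ, ∃ K, N ≤ K ∧ PtCov a (Fin K) ((m - 1 + ε) * K)] := by
  have h := main (al := a) ha (by rw [Fintype.card_fin]; exact hm)
  rw [Fintype.card_fin] at h
  have h1 : ∀ K : ℕ, FinMax (hyper a (Fin K)) ↔ FinAtyp (hyper a (Fin K)) := fun K =>
    finMax_iff (fun x hx => hx.1) (closed_hyper a)
  simp only [h1]
  exact h

end Pool.Agent.T6.H15.HY
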