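import Pool.Agent.T6.H15.HY.Sys

/-!
# The monomials which recover the sums
-/

set_option autoImplicit false

open MvPolynomial

namespace Pool.Agent.T6.H15.HY

open Pool.Agent.T6.H15.ZP Pool.Agent.T6.H15.MZ Pool.Agent.T6.H15.UE

section

variable {σ : Type} [Fintype σ] [DecidableEq σ] {ι Ch : Type} [Fintype ι] [Fintype Ch]

/-- quotients of successive sums -/
noncomputable def rv (H : Hp σ) (E : Dat ι Ch) (c : Ch) (l : ℕ) (y : Gi E × σ → ℂ) : ℂ :=
  if h : l < E.M c then H.al H.i0 * y (Sum.inr ⟨c, ⟨l, h⟩⟩, H.i0) else 1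

/-- quotients of terms and sums -/
noncomputable def tv (H : Hp σ) (E : Dat ι Ch) (c : Ch) (l : ℕ) (y : Gi E × σ → ℂ) : ℂ :=
  if h : l < E.M c then H.al H.i1 * y (Sum.inr ⟨c, ⟨l, h⟩⟩, H.i1) else 1

/-- the sums -/
noncomputable def Pm (H : Hp σ) (E : Dat ι Ch) (c : Ch) (l : ℕ) (y : Gi E × σ → ℂ) : ℂ :=
  (H.al H.i0 * y (Sum.inl c, H.i0)) * (∏ j ∈ Finset.range l, rv H E c j y)⁻¹

/-- the terms -/
noncomputable def Tm (H : Hp σ) (E : Dat ι Ch) (c : Ch) (l : ℕ) (y : Gi E × σ → ℂ) : ℂ :=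
  tv H E c l y * Pm H E c (l + 1) y

/-- the coordinates -/
noncomputable def Xm (H : Hp σ) (E : Dat ι Ch) (i : ι) (y : Gi E × σ → ℂ) : ℂ :=
  Tm H E (E.vis i) 0 y

/-- the last term of the first gate -/
noncomputable def Qm (H : Hp σ) (E : Dat ι Ch) (c : Ch) (y : Gi E × σ → ℂ) : ℂ :=
  H.al H.i1 * y (Sum.inl c, H.i1)

/-- the dummy terms -/
noncomputable def Dm (H : Hp σ) (E : Dat ι Ch) (c : Ch) (l : Fin (E.M c)) (i : σ)
    (y : Gi E × σ → ℂ) : ℂ :=
  (H.al i * y (Sum.inr ⟨c, l⟩, i)) * Pm H E c (l + 1) y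

variable (H : Hp σ) (E : Dat ι Ch)

theorem isMon_rv (c : Ch) (l : ℕ) : IsMonC (rv H E c l) := by
  unfold rv
  by_cases h : l < E.M c
  · simp only [h, dif_pos]
    exact (IsMonC.const (H.hal _)).mul (IsMonC.coord _)
  · simp only [h, dif_neg, not_false_eq_true]
    exact IsMonC.const one_ne_zero

theorem isMon_tv (c : Ch) (l : ℕ) : IsMonC (tv H E c l) := by
  unfold tv
  by_cases h : l < E.M c
  · simp only [h, dif_pos]
    exact (IsMonC.const (H.hal _)).mul (IsMonC.coord _)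
  · simp only [h, dif_neg, not_false_eq_true]
    exact IsMonC.const one_ne_zero

theorem isMon_Pm (c : Ch) (l : ℕ) : IsMonC (Pm H E c l) :=
  ((IsMonC.const (H.hal _)).mul (IsMonC.coord _)).mul
    (IsMonC.prod _ fun j _ => isMon_rv H E c j).inv

theorem isMon_Tm (c : Ch) (l : ℕ) : IsMonC (Tm H E c l) := (isMon_tv H E c l).mul (isMon_Pm H E c _)

theorem isMon_Xm (i : ι) : IsMonC (Xm H E i) := isMon_Tm H E _ _

theorem isMon_Qm (c : Ch) : IsMonC (Qm H E c) := (IsMonC.const (H.hal _)).mul (IsMonC.coord _)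

theorem isMon_Dm (c : Ch) (l : Fin (E.M c)) (i : σ) : IsMonC (Dm H E c l i) :=
  ((IsMonC.const (H.hal _)).mul (IsMonC.coord _)).mul (isMon_Pm H E c _)

variable {H E}

theorem Pm_zero (c : Ch) (y : Gi E × σ → ℂ) : Pm H E c 0 y = H.al H.i0 * y (Sum.inl c, H.i0) := by
  unfold Pm
  rw [Finset.prod_range_zero, inv_one, mul_one]

theorem Pm_succ {y : Gi E × σ → ℂ} (hy : ∀ p, y p ≠ 0) (c : Ch) (l : ℕ) :
    rv H E c l y * Pm H E c (l + 1) y = Pm H E c l y := by
  unfold Pm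
  rw [Finset.prod_range_succ, mul_inv]
  have h1 : rv H E c l y ≠ 0 := (isMon_rv H E c l).ne_zero hy
  field_simp

/-- The recursion on the powers of the hyperplane. -/
theorem Pm_add {y : Gi E × σ → ℂ} (hy : y ∈ hyper H.al (Gi E)) (c : Ch) (l : Fin (E.M c)) {e : ℂ}
    (hD : ∀ i, i ≠ H.i0 → i ≠ H.i1 → Dm H E c l i y = e) :
    Pm H E c (l + 1) y = Pm H E c l y + (Tm H E c l y +
      (((Finset.univ.erase H.i0).erase H.i1).card : ℂ) * e) := by
  have h1 := hy.2 (Sum.inr ⟨c, l⟩)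
  have h2 := H.sum (rv H E c l y * Pm H E c (l + 1) y) (Tm H E c l y) e
    (fun i => (H.al i * y (Sum.inr ⟨c, l⟩, i)) * Pm H E c (l + 1) y)
    (by
      unfold rv
      rw [dif_pos l.2])
    (by
      unfold Tm tv
      rw [dif_pos l.2])
    (fun i h0 h1 => hD i h0 h1)
  rw [← Finset.sum_mul, h1, one_mul, Pm_succ hy.1] at h2
  rw [h2]
  ring

variable {W : Set (ι → ℂ)} {s : Finset ι}

section Image

variable {z : ι ⊕ Ch → ℂ}

theorem rv_phi (c : Ch) (l : Fin (E.M c)) :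
    rv H E c l (phi H E z) = eval z (PP H E c l) / eval z (PP H E c (l + 1)) := by
  unfold rv
  rw [dif_pos l.2, al_phi, nu, if_pos rfl]
  rfl

theorem Pm_phi (hg : eval z (good H E) ≠ 0) (c : Ch) (l : ℕ) (hl : l ≤ E.M c) :
    Pm H E c l (phi H E z) = eval z (PP H E c l) := by
  unfold Pm
  rw [al_phi, nu, if_pos rfl, dn, map_one, div_one, eval_X]
  induction l with
  | zero => rw [Finset.prod_range_zero, inv_one, mul_one, eval_PP_zero]
  | succ l ih =>
    have h1 := ih (by omega)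
    rw [Finset.prod_range_succ, mul_inv, ← mul_assoc, h1, rv_phi c ⟨l, hl⟩]
    have h2 := (eval_good hg c).2 l (by omega)
    have h3 := (eval_good hg c).2 (l + 1) hl
    dsimp only
    field_simp

theorem Tm_phi (hg : eval z (good H E) ≠ 0) (c : Ch) (l : Fin (E.M c)) :
    Tm H E c l (phi H E z) = eval (fun i => z (Sum.inl i)) (monomial (E.m c l) (E.a c l)) := by
  unfold Tm tv
  rw [dif_pos l.2, al_phi, nu, if_neg H.ne.symm, if_pos rfl, Pm_phi hg c _ l.2, dn, eval_rename]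
  exact div_mul_cancel₀ _ ((eval_good hg c).2 _ l.2)

theorem Dm_phi (hg : eval z (good H E) ≠ 0) (c : Ch) (l : Fin (E.M c)) {i : σ} (h0 : i ≠ H.i0)
    (h1 : i ≠ H.i1) : Dm H E c l i (phi H E z) = H.dm * E.ze c ^ (l : ℕ) := by
  unfold Dm
  rw [al_phi, nu, if_neg h0, if_neg h1, Pm_phi hg c _ l.2, dn, eval_C]
  exact div_mul_cancel₀ _ ((eval_good hg c).2 _ l.2)

theorem Qm_phi (c : Ch) : Qm H E c (phi H E z) = H.kap - z (Sum.inr c) := by
  unfold Qm
  rw [al_phi, nu, if_neg H.ne.symm, if_pos rfl, dn, map_one, div_one, map_sub, eval_C, eval_X]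

theorem Xm_phi (h : Sys H E W s) (hg : eval z (good H E) ≠ 0) (i : ι) :
    Xm H E i (phi H E z) = z (Sum.inl i) := by
  unfold Xm
  have h1 := Tm_phi hg (E.vis i) ⟨0, h.vM i⟩
  dsimp only at h1
  rw [h1, h.vm, h.va, ← MvPolynomial.X, eval_X]

end Image

end

end Pool.Agent.T6.H15.HY
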