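import Pool.Agent.T6.H15.HY.Opt
import Pool.Agent.T6.H15.MS.Phi

/-!
# The powers of the hyperplane: irreducibility and dimension
-/

set_option autoImplicit false

open MvPolynomial

namespace Pool.Agent.T6.H15.HY

open Pool.Agent.T6.H15.ZP Pool.Agent.T6.H15.MZ Pool.Agent.T6.H15.UE

section

variable {σ : Type} [Fintype σ] [DecidableEq σ] {al : σ → ℂ} {κ : Type} [Fintype κ]

/-- the parametrization -/
noncomputable def par (al : σ → ℂ) (i1 : σ) (p : κ × σ) :
    MvPolynomial (κ × {i : σ // i ≠ i1}) ℂ :=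
  if h : p.2 ≠ i1 then X (p.1, ⟨p.2, h⟩) else
    C (al i1)⁻¹ * (1 - ∑ i : {i : σ // i ≠ i1}, C (al i) * X (p.1, i))

theorem par_ne (i1 : σ) (k : κ) (i : {i : σ // i ≠ i1}) : par al i1 (k, (i : σ)) = X (k, i) := by
  unfold par
  rw [dif_pos i.2]

theorem eval_par (i1 : σ) (x : κ × {i : σ // i ≠ i1} → ℂ) (k : κ) : eval x (par al i1 (k, i1)) =
    (al i1)⁻¹ * (1 - ∑ i : {i : σ // i ≠ i1}, al i * x (k, i)) := by
  unfold par
  rw [dif_neg (by simp)]
  simp only [map_mul, eval_C, map_sub, map_one, map_sum, eval_X]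

theorem par_sum (hal : ∀ i, al i ≠ 0) (i1 : σ) (x : κ × {i : σ // i ≠ i1} → ℂ) (k : κ) :
    ∑ i, al i * eval x (par al i1 (k, i)) = 1 := by
  rw [Fintype.sum_eq_add_sum_subtype_ne _ i1, eval_par, ← mul_assoc, mul_inv_cancel₀ (hal i1),
    one_mul]
  have h1 : ∀ i : {i : σ // i ≠ i1}, al i * eval x (par al i1 (k, (i : σ))) = al i * x (k, i) := by
    intro i
    rw [par_ne, eval_X]
  rw [Finset.sum_congr rfl fun i _ => h1 i]
  ring

theorem eq_par (hal : ∀ i, al i ≠ 0) (i1 : σ) {z : κ × σ → ℂ} (hz : z ∈ hyper al κ)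
    (p : κ × σ) : z p = eval (fun i : κ × {i : σ // i ≠ i1} => z (i.1, (i.2 : σ))) (par al i1 p) := by
  obtain ⟨k, i⟩ := p
  by_cases h : i = i1
  · subst h
    rw [eval_par]
    have h1 := hz.2 k
    rw [Fintype.sum_eq_add_sum_subtype_ne _ i] at h1
    have h2 := hal i
    rw [eq_inv_mul_iff_mul_eq₀ h2]
    linear_combination h1
  · have h1 := par_ne (al := al) i1 k ⟨i, h⟩
    dsimp only at h1
    rw [h1, eval_X]

/-- the product of the coordinates -/
noncomputable def parD (al : σ → ℂ) (κ : Type) [Fintype κ] (i1 : σ) :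
    MvPolynomial (κ × {i : σ // i ≠ i1}) ℂ := ∏ p : κ × σ, par al i1 p

theorem parD_not_mem (hal : ∀ i, al i ≠ 0) (i1 : σ) :
    parD al κ i1 ∉ idealOf (Set.univ : Set (κ × {i : σ // i ≠ i1} → ℂ)) := by
  have hp : (idealOf (Set.univ : Set (κ × {i : σ // i ≠ i1} → ℂ))).IsPrime := isVar_univ.irred
  unfold parD
  rw [hp.prod_mem_iff]
  rintro ⟨⟨k, i⟩, -, h1⟩
  rw [mem_idealOf] at h1
  by_cases h : i = i1
  · subst h
    have h2 := h1 (fun _ => 0) (Set.mem_univ _)
    rw [eval_par] at h2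
    simp only [mul_zero, Finset.sum_const_zero, sub_zero, mul_one] at h2
    exact inv_ne_zero (hal i) h2
  · have h2 := h1 (fun _ => 1) (Set.mem_univ _)
    have h3 := par_ne (al := al) i1 k ⟨i, h⟩
    dsimp only at h3
    rw [h3, eval_X] at h2
    exact one_ne_zero h2

theorem hyper_eq (hal : ∀ i, al i ≠ 0) (i1 : σ) : hyper al κ =
    (fun (x : κ × {i : σ // i ≠ i1} → ℂ) p => eval x (par al i1 p)) ''
      {x | x ∈ (Set.univ : Set (κ × {i : σ // i ≠ i1} → ℂ)) ∧ eval x (parD al κ i1) ≠ 0} := by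
  ext z
  constructor
  · intro hz
    refine ⟨fun i => z (i.1, (i.2 : σ)), ⟨Set.mem_univ _, ?_⟩, ?_⟩
    · unfold parD
      rw [map_prod, Finset.prod_ne_zero_iff]
      intro p _
      rw [← eq_par hal i1 hz]
      exact hz.1 p
    · funext p
      exact (eq_par hal i1 hz p).symm
  · rintro ⟨x, ⟨-, hx⟩, rfl⟩
    unfold parD at hx
    rw [map_prod, Finset.prod_ne_zero_iff] at hx
    exact ⟨fun p => hx p (Finset.mem_univ p), fun k => par_sum hal i1 x k⟩

theorem irred_hyper (hal : ∀ i, al i ≠ 0) (i1 : σ) : Irred (hyper al κ) := by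
  rw [hyper_eq hal i1]
  have h := irred_rat isVar_univ.irred (par (κ := κ) al i1)
    (fun _ => (1 : MvPolynomial (κ × {i : σ // i ≠ i1}) ℂ)) (parD_not_mem hal i1)
    (fun x _ _ i => by rw [map_one]; exact one_ne_zero)
  simp only [map_one, div_one] at h
  exact h

theorem dim_hyper (hal : ∀ i, al i ≠ 0) (i1 : σ) :
    dim (hyper al κ) + Fintype.card κ = Fintype.card (κ × σ) := by
  have h1 : img (fun i : κ × {i : σ // i ≠ i1} => (i.1, (i.2 : σ))) (hyper al κ) =
      {x | x ∈ (Set.univ : Set (κ × {i : σ // i ≠ i1} → ℂ)) ∧ eval x (parD al κ i1) ≠ 0} := by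
    rw [hyper_eq hal i1]
    ext x
    constructor
    · rintro ⟨_, ⟨y, hy, rfl⟩, rfl⟩
      have h2 : (fun i : κ × {i : σ // i ≠ i1} => eval y (par al i1 (i.1, (i.2 : σ)))) = y := by
        funext i
        rw [par_ne, eval_X]
      dsimp only
      rw [h2]
      exact hy
    · intro hx
      refine ⟨_, ⟨x, hx, rfl⟩, ?_⟩
      funext i
      dsimp only
      rw [par_ne, eval_X]
  have h2 : dim (img (fun i : κ × {i : σ // i ≠ i1} => (i.1, (i.2 : σ))) (hyper al κ)) =
      Fintype.card (κ × {i : σ // i ≠ i1}) := by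
    rw [h1]
    unfold dim
    rw [idealOf_open isVar_univ.irred (parD_not_mem hal i1)]
    exact dim_univ
  have h3 : dim (hyper al κ) = Fintype.card (κ × {i : σ // i ≠ i1}) := by
    apply le_antisymm
    · have h := MS.dim_le_img (irred_hyper (κ := κ) hal i1) (par al i1)
        (fun i : κ × {i : σ // i ≠ i1} => (i.1, (i.2 : σ))) fun x hx z => eq_par hal i1 hx z
      rwa [h2] at h
    · rw [← h2]
      exact dim_img_le (irred_hyper hal i1)
  have h4 : Fintype.card {i : σ // i ≠ i1} + 1 = Fintype.card σ := by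
    have h5 : Fintype.card {i : σ // i ≠ i1} = Fintype.card σ - 1 := by
      simp
    have h6 : 0 < Fintype.card σ := Fintype.card_pos_iff.2 ⟨i1⟩
    omega
  rw [h3, Fintype.card_prod, Fintype.card_prod, ← h4]
  ring

end

end Pool.Agent.T6.H15.HY
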