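import Pool.Agent.T6.H15.HY.Fun

/-!
# The rank of the group of the constant characters of the image
-/

set_option autoImplicit false

open MvPolynomial

namespace Pool.Agent.T6.H15.HY

open Pool.Agent.T6.H15.ZP Pool.Agent.T6.H15.MZ Pool.Agent.T6.H15.UE

/-- Products of powers of different linear factors are not constant. -/
theorem exp_zero {N : Type} [Fintype N] {r : N → ℂ} (hr : Function.Injective r) (e : N → ℤ)
    {c : ℂ} {F : Set ℂ} (hF : F.Finite)
    (h : ∀ x ∉ F, (∀ i, x ≠ r i) ∧ ∏ i, (x - r i) ^ e i = c) : e = 0 := by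
  classical
  obtain ⟨x0, hx0⟩ := hF.infinite_compl.nonempty
  have hc : c ≠ 0 := by
    rw [← (h x0 hx0).2]
    exact Finset.prod_ne_zero_iff.2 fun i _ => zpow_ne_zero _ (sub_ne_zero.2 ((h x0 hx0).1 i))
  set P : Polynomial ℂ := ∏ i, (Polynomial.X - Polynomial.C (r i)) ^ (e i).toNat with hP
  set Q : Polynomial ℂ := Polynomial.C c *
    ∏ i, (Polynomial.X - Polynomial.C (r i)) ^ (-e i).toNat with hQ
  have hev : ∀ x ∉ F, P.eval x = Q.eval x := by
    intro x hx
    obtain ⟨h1, h2⟩ := h x hx
    rw [hP, hQ, Polynomial.eval_mul, Polynomial.eval_prod, Polynomial.eval_prod,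
      Polynomial.eval_C, ← h2, ← Finset.prod_mul_distrib]
    refine Finset.prod_congr rfl fun i _ => ?_
    simp only [Polynomial.eval_pow, Polynomial.eval_sub, Polynomial.eval_X, Polynomial.eval_C]
    have h3 : x - r i ≠ 0 := sub_ne_zero.2 (h1 i)
    rw [← zpow_natCast, ← zpow_natCast, ← zpow_add₀ h3]
    congr 1
    omega
  have hPQ : P = Q := by
    apply Polynomial.eq_of_infinite_eval_eq
    refine hF.infinite_compl.mono ?_
    intro x hx
    exact hev x hx
  have hprod : ∀ (i : N) (n : N → ℕ), n i = 0 →
      (∏ j, (Polynomial.X - Polynomial.C (r j)) ^ n j : Polynomial ℂ).eval (r i) ≠ 0 := by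
    intro i n hn
    rw [Polynomial.eval_prod]
    refine Finset.prod_ne_zero_iff.2 fun j _ => ?_
    simp only [Polynomial.eval_pow, Polynomial.eval_sub, Polynomial.eval_X, Polynomial.eval_C]
    by_cases hij : i = j
    · subst hij
      rw [hn, pow_zero]
      exact one_ne_zero
    · exact pow_ne_zero _ (sub_ne_zero.2 fun h1 => hij (hr h1))
  have hzero : ∀ (i : N) (n : N → ℕ), n i ≠ 0 →
      (∏ j, (Polynomial.X - Polynomial.C (r j)) ^ n j : Polynomial ℂ).eval (r i) = 0 := by
    intro i n hn
    rw [Polynomial.eval_prod]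
    apply Finset.prod_eq_zero (Finset.mem_univ i)
    simp only [Polynomial.eval_pow, Polynomial.eval_sub, Polynomial.eval_X, Polynomial.eval_C,
      sub_self]
    exact zero_pow hn
  funext i
  show e i = 0
  by_contra hne
  have h1 := congrArg (fun p => Polynomial.eval (r i) p) hPQ
  rw [hQ] at h1
  simp only [Polynomial.eval_mul, Polynomial.eval_C] at h1
  rcases lt_or_gt_of_ne hne with h2 | h2
  · have h3 := hprod i (fun j => (e j).toNat) (by omega)
    have h4 := hzero i (fun j => (-e j).toNat) (by omega)
    rw [h4, mul_zero] at h1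
    exact h3 h1
  · have h3 := hprod i (fun j => (-e j).toNat) (by omega)
    have h4 := hzero i (fun j => (e j).toNat) (by omega)
    rw [hP, h4] at h1
    exact mul_ne_zero hc h3 h1.symm

section

variable {σ : Type} [Fintype σ] [DecidableEq σ] {ι Ch : Type} [Fintype ι] [Fintype Ch]
  {H : Hp σ} {E : Dat ι Ch} {W : Set (ι → ℂ)} {s : Finset ι}

/-- the indices of the independent monomials -/
abbrev Nm (E : Dat ι Ch) : Type := ι ⊕ (Ch ⊕ (Σ c : Ch, Fin (E.L c + 1)))

/-- the independent monomials -/
noncomputable def nm (H : Hp σ) (E : Dat ι Ch) : Nm E → (Gi E × σ → ℂ) → ℂ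
  | Sum.inl i => Xm H E i
  | Sum.inr (Sum.inl c) => Qm H E c
  | Sum.inr (Sum.inr ⟨c, l⟩) => Pm H E c l

theorem isMon_nm (j : Nm E) : IsMonC (nm H E j) := by
  rcases j with i | c | ⟨c, l⟩
  · exact isMon_Xm H E i
  · exact isMon_Qm H E c
  · exact isMon_Pm H E c l

theorem good_iff {z : ι ⊕ Ch → ℂ} : eval z (good H E) ≠ 0 ↔
    ∀ c, H.kap - z (Sum.inr c) ≠ 0 ∧ ∀ l ≤ E.M c, eval z (PP H E c l) ≠ 0 := by
  refine ⟨fun h c => eval_good h c, fun h => ?_⟩
  unfold good
  rw [map_prod, Finset.prod_ne_zero_iff]
  intro c _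
  rw [map_mul, map_prod, map_sub, eval_C, eval_X]
  refine mul_ne_zero (h c).1 (Finset.prod_ne_zero_iff.2 fun l hl => (h c).2 l ?_)
  have := Finset.mem_range.1 hl
  omega

/-- the factors of a chain -/
noncomputable def Gf (H : Hp σ) (E : Dat ι Ch) (e : Nm E → ℤ) (z : ι ⊕ Ch → ℂ) (c : Ch) : ℂ :=
  (H.kap - z (Sum.inr c)) ^ e (Sum.inr (Sum.inl c)) *
    ∏ l : Fin (E.L c + 1), eval z (PP H E c l) ^ e (Sum.inr (Sum.inr ⟨c, l⟩))

theorem prod_nm (h : Sys H E W s) {z : ι ⊕ Ch → ℂ} (hg : eval z (good H E) ≠ 0)
    (e : Nm E → ℤ) : ∏ j, nm H E j (phi H E z) ^ e j =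
      (∏ i, z (Sum.inl i) ^ e (Sum.inl i)) * ∏ c, Gf H E e z c := by
  rw [Fintype.prod_sum_type, Fintype.prod_sum_type]
  congr 1
  · refine Finset.prod_congr rfl fun i _ => ?_
    rw [nm, Xm_phi h hg]
  · unfold Gf
    rw [Finset.prod_mul_distrib, Fintype.prod_sigma]
    congr 1
    · refine Finset.prod_congr rfl fun c _ => ?_
      rw [nm, Qm_phi]
    · refine Finset.prod_congr rfl fun c _ => Finset.prod_congr rfl fun l _ => ?_
      rw [nm, Pm_phi hg c l]
      have := l.2
      have := h.L_le c
      omega

theorem Gf_ne (h : Sys H E W s) {z : ι ⊕ Ch → ℂ} (hg : eval z (good H E) ≠ 0)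
    (e : Nm E → ℤ) (c : Ch) : Gf H E e z c ≠ 0 := by
  refine mul_ne_zero (zpow_ne_zero _ (eval_good hg c).1)
    (Finset.prod_ne_zero_iff.2 fun l _ => zpow_ne_zero _ ((eval_good hg c).2 _ ?_))
  have := l.2
  have := h.L_le c
  omega

/-- a point in general position for a chain -/
theorem exists_generic_pt (h : Sys H E W s) (c : Ch) : ∃ w ∈ W,
    (∀ l l', l < l' → l' ≤ E.L c → eval w (E.ps H c l') ≠ eval w (E.ps H c l)) ∧
    ∀ l, l ≤ E.L c → eval w (E.ps H c l) + H.kap ≠ 0 := by
  classical
  have hWp : (idealOf W).IsPrime := h.irr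
  set R : MvPolynomial ι ℂ :=
    (∏ p ∈ ((Finset.range (E.L c + 1)) ×ˢ (Finset.range (E.L c + 1))).filter fun p => p.1 < p.2,
      (E.ps H c p.2 - E.ps H c p.1)) * ∏ l ∈ Finset.range (E.L c + 1), (E.ps H c l + C H.kap)
    with hR
  have hRW : R ∉ idealOf W := by
    intro hmem
    rcases hWp.mem_or_mem hmem with h1 | h1
    · rw [hWp.prod_mem_iff] at h1
      obtain ⟨p, hp, h2⟩ := h1
      rw [Finset.mem_filter, Finset.mem_product, Finset.mem_range, Finset.mem_range] at hp
      exact h.hdist c p.1 p.2 hp.2 (by omega) h2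
    · rw [hWp.prod_mem_iff] at h1
      obtain ⟨l, hl, h2⟩ := h1
      rw [Finset.mem_range] at hl
      exact h.hone c l (by omega) h2
  obtain ⟨w, hw, h1⟩ := exists_of_not_mem hRW
  rw [hR, map_mul, map_prod, map_prod] at h1
  refine ⟨w, hw, fun l l' hl hl' heq => ?_, fun l hl heq => ?_⟩
  · have h2 := Finset.prod_ne_zero_iff.1 (left_ne_zero_of_mul h1) (l, l') (by
      rw [Finset.mem_filter, Finset.mem_product, Finset.mem_range, Finset.mem_range]
      exact ⟨⟨by dsimp only; omega, by dsimp only; omega⟩, hl⟩)
    apply h2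
    rw [map_sub]
    exact sub_eq_zero.2 heq
  · have h2 := Finset.prod_ne_zero_iff.1 (right_ne_zero_of_mul h1) l
      (Finset.mem_range.2 (by omega))
    apply h2
    rw [map_add, eval_C]
    exact heq

/-- **The monomials are independent modulo constants.** -/
theorem indep_nm (h : Sys H E W s) (e : Nm E → ℤ) {K0 : ℂ}
    (hconst : ∀ y ∈ image H E W, ∏ j, nm H E j y ^ e j = K0) : e = 0 := by
  classical
  have hval : ∀ w ∈ W, ∀ x : Ch → ℂ, eval (Sum.elim w x) (good H E) ≠ 0 →
      (∏ i, w i ^ e (Sum.inl i)) * ∏ c, Gf H E e (Sum.elim w x) c = K0 := by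
    intro w hw x hx
    rw [← hconst _ ⟨Sum.elim w x, ⟨elim_mem hw (Set.mem_univ x), hx⟩, rfl⟩, prod_nm h hx]
    rfl
  have hchain : ∀ c, e (Sum.inr (Sum.inl c)) = 0 ∧
      ∀ l : Fin (E.L c + 1), e (Sum.inr (Sum.inr ⟨c, l⟩)) = 0 := by
    intro c
    obtain ⟨w, hw, hd, ho⟩ := exists_generic_pt h c
    obtain ⟨x0, -, hx0, -⟩ := exists_good (H := H) (E := E) (w := w) (F := 1) (by
      rw [map_one]
      exact one_ne_zero)
    -- the roots
    set r : Option (Fin (E.L c + 1)) → ℂ := fun o =>
      o.elim H.kap fun l => -eval w (E.ps H c l) with hr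
    have hrinj : Function.Injective r := by
      rintro (- | l) (- | l') hll
      · rfl
      · exfalso
        have h1 : H.kap = -eval w (E.ps H c l') := hll
        exact ho l' (by have := l'.2; omega) (by rw [h1]; ring)
      · exfalso
        have h1 : -eval w (E.ps H c l) = H.kap := hll
        exact ho l (by have := l.2; omega) (by rw [← h1]; ring)
      · have h1 : -eval w (E.ps H c l) = -eval w (E.ps H c l') := hll
        have h2 := neg_injective h1
        congr 1
        apply Fin.ext
        have g1 := l.2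
        have g2 := l'.2
        rcases lt_trichotomy (l : ℕ) l' with h3 | h3 | h3
        · exact absurd h2.symm (hd l l' h3 (by omega))
        · exact h3
        · exact absurd h2 (hd l' l h3 (by omega))
    set F : Set ℂ := {H.kap} ∪ (fun l => -eval w (E.ps H c l)) '' Set.Iic (E.M c) with hF
    have hFfin : F.Finite := (Set.finite_singleton _).union ((Set.finite_Iic _).image _)
    have hgx : ∀ x ∉ F, eval (Sum.elim w (Function.update x0 c x)) (good H E) ≠ 0 := by
      intro x hx
      rw [good_iff]
      intro c'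
      by_cases hc : c' = c
      · subst hc
        constructor
        · show H.kap - Function.update x0 c' x c' ≠ 0
          rw [Function.update_self, sub_ne_zero]
          exact fun h1 => hx (Or.inl h1.symm)
        · intro l hl
          rw [eval_PP]
          show Function.update x0 c' x c' + eval w (E.ps H c' l) ≠ 0
          rw [Function.update_self]
          intro h1
          exact hx (Or.inr ⟨l, hl, by linear_combination -h1⟩)
      · have h1 := eval_good hx0 c'
        constructor
        · show H.kap - Function.update x0 c x c' ≠ 0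
          rw [Function.update_of_ne hc]
          exact h1.1
        · intro l hl
          rw [eval_PP]
          show Function.update x0 c x c' + eval w (E.ps H c' l) ≠ 0
          rw [Function.update_of_ne hc]
          have h2 := h1.2 l hl
          rw [eval_PP] at h2
          exact h2
    set A : ℂ := (∏ i, w i ^ e (Sum.inl i)) *
      ∏ c' ∈ Finset.univ.erase c, Gf H E e (Sum.elim w x0) c' with hA
    have hA0 : A ≠ 0 := mul_ne_zero (Finset.prod_ne_zero_iff.2 fun i _ =>
      zpow_ne_zero _ (h.tor w hw i)) (Finset.prod_ne_zero_iff.2 fun c' _ => Gf_ne h hx0 e c')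
    have hsplit : ∀ x ∉ F, A * Gf H E e (Sum.elim w (Function.update x0 c x)) c = K0 := by
      intro x hx
      have h1 := hval w hw _ (hgx x hx)
      rw [← Finset.mul_prod_erase Finset.univ _ (Finset.mem_univ c)] at h1
      rw [← h1, hA, mul_assoc]
      congr 1
      rw [mul_comm]
      congr 1
      refine Finset.prod_congr rfl fun c' hc' => ?_
      have hne := (Finset.mem_erase.1 hc').1
      unfold Gf
      simp only [eval_PP, Sum.elim_inr, Function.update_of_ne hne]
      rfl
    have hexp := exp_zero hrinj (fun o => o.elim (e (Sum.inr (Sum.inl c)))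
      fun l => e (Sum.inr (Sum.inr ⟨c, l⟩))) hFfin (c := (-1) ^ e (Sum.inr (Sum.inl c)) * (A⁻¹ * K0))
      (by
        intro x hx
        constructor
        · rintro (- | l) hxl
          · exact hx (Or.inl hxl)
          · refine hx (Or.inr ⟨l, ?_, hxl.symm⟩)
            have := l.2
            have := h.L_le c
            show (l : ℕ) ≤ E.M c
            omega
        · rw [← hsplit x hx, inv_mul_cancel_left₀ hA0, Fintype.prod_option]
          show (x - H.kap) ^ e (Sum.inr (Sum.inl c)) *
            ∏ l : Fin (E.L c + 1), (x - -eval w (E.ps H c l)) ^ e (Sum.inr (Sum.inr ⟨c, l⟩)) = _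
          unfold Gf
          rw [← mul_assoc, ← mul_zpow]
          congr 1
          · congr 1
            show x - H.kap = -1 * (H.kap - Function.update x0 c x c)
            rw [Function.update_self]
            ring
          · refine Finset.prod_congr rfl fun l _ => ?_
            rw [eval_PP]
            congr 1
            show x - -eval w (E.ps H c l) = Function.update x0 c x c + eval w (E.ps H c l)
            rw [Function.update_self]
            ring)
    exact ⟨congrFun hexp none, fun l => congrFun hexp (some l)⟩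
  have hG : ∀ z c, Gf H E e z c = 1 := by
    intro z c
    unfold Gf
    rw [(hchain c).1, zpow_zero, one_mul]
    exact Finset.prod_eq_one fun l _ => by rw [(hchain c).2 l, zpow_zero]
  have h1 : (fun i => e (Sum.inl i)) = 0 := by
    apply h.ncon _ K0
    intro w hw
    obtain ⟨x, -, hx, -⟩ := exists_good (H := H) (E := E) (w := w) (F := 1) (by
      rw [map_one]
      exact one_ne_zero)
    have h2 := hval w hw x hx
    simp only [hG, Finset.prod_const_one, mul_one] at h2
    exact h2
  funext j
  rcases j with i | c | ⟨c, l⟩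
  · exact congrFun h1 i
  · exact (hchain c).1
  · exact (hchain c).2 l

/-- The rank of the group of the constant characters. -/
theorem rank_const (h : Sys H E W s) :
    Module.finrank ℤ (constLat (image H E W) (image_torus h)) + Fintype.card (Nm E) ≤
      Fintype.card (Gi E × σ) := by
  classical
  have hm := fun j : Nm E => isMon_nm (H := H) j
  choose k b hk hb using hm
  let lin : (Nm E → ℤ) →ₗ[ℤ] (Gi E × σ → ℤ) := Fintype.linearCombination ℤ b
  have hlin : ∀ e, lin e = ∑ j, e j • b j := fun e => Fintype.linearCombination_apply _ _ _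
  let φ : (constLat (image H E W) (image_torus h) × (Nm E → ℤ)) →ₗ[ℤ] (Gi E × σ → ℤ) :=
    (constLat (image H E W) (image_torus h)).subtype.coprod lin
  have hφ : ∀ p, φ p = (p.1 : Gi E × σ → ℤ) + lin p.2 := by
    intro p
    show (constLat (image H E W) (image_torus h)).subtype.coprod lin p = _
    rw [LinearMap.coprod_apply]
    rfl
  have hinj : Function.Injective φ := by
    rw [← LinearMap.ker_eq_bot, Submodule.eq_bot_iff]
    intro p hp
    rw [LinearMap.mem_ker, hφ] at hp
    have h1 : lin p.2 ∈ constLat (image H E W) (image_torus h) := by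
      have h2 : lin p.2 = -(p.1 : Gi E × σ → ℤ) := by
        rw [eq_neg_iff_add_eq_zero, add_comm]
        exact hp
      rw [h2]
      exact Submodule.neg_mem _ p.1.2
    obtain ⟨c, hc⟩ := h1
    have h3 : p.2 = 0 := by
      apply indep_nm h p.2 (K0 := (∏ j, k j ^ p.2 j) * c)
      intro y hy
      have hy0 := image_torus h y hy
      rw [← hc y hy, hlin, chr_sum hy0, ← Finset.prod_mul_distrib]
      refine Finset.prod_congr rfl fun j _ => ?_
      rw [hb j y hy0, mul_zpow, chr_zsmul]
    have h5 : p.1 = 0 := by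
      apply Subtype.ext
      rw [h3, map_zero, add_zero] at hp
      exact hp
    exact Prod.ext h5 h3
  have h1 := LinearMap.finrank_le_finrank_of_injective hinj
  rwa [Module.finrank_prod, Module.finrank_fintype_fun_eq_card,
    Module.finrank_fintype_fun_eq_card] at h1

theorem card_Nm : Fintype.card (Nm E) = Fintype.card ι + 2 * Fintype.card Ch + ∑ c, E.L c := by
  rw [Fintype.card_sum, Fintype.card_sum, Fintype.card_sigma]
  simp only [Fintype.card_fin]
  rw [Finset.sum_add_distrib, Finset.sum_const, Finset.card_univ, smul_eq_mul, mul_one]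
  ring

theorem card_Gi : Fintype.card (Gi E) = Fintype.card Ch + ∑ c, E.M c := by
  rw [Fintype.card_sum, Fintype.card_sigma]
  simp only [Fintype.card_fin]

end

end Pool.Agent.T6.H15.HY
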