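import Pool.Agent.T6.H15.HY.Main

/-!
# Maximal atypical subvarieties
-/

set_option autoImplicit false

open MvPolynomial

namespace Pool.Agent.T6.H15.HY

open Pool.Agent.T6.H15.ZP Pool.Agent.T6.H15.MZ Pool.Agent.T6.H15.UE

section

variable {ι : Type} [Fintype ι]

/-- The coset of the algebraic subgroup defined by `M` through the point `η`; a special variety if `M`
is saturated and `η` is a torsion point. -/
def special (M : Submodule ℤ (ι → ℤ)) (η : ι → ℂ) : Set (ι → ℂ) :=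
  {y | (∀ i, y i ≠ 0) ∧ ∀ a ∈ M, ∏ i, y i ^ a i = ∏ i, η i ^ a i}

/-- `M` is saturated: the algebraic subgroup defined by `M` is a torus. -/
def Saturated (M : Submodule ℤ (ι → ℤ)) : Prop :=
  ∀ a : ι → ℤ, ∀ m : ℤ, m ≠ 0 → m • a ∈ M → a ∈ M

/-- `η` is a torsion point. -/
def Torsion (η : ι → ℂ) : Prop := ∃ m : ℕ, 0 < m ∧ ∀ i, η i ^ m = 1

/-- `X` is an atypical subvariety of `V`: a maximal irreducible subset of the intersection of `V` with a
special variety `T` such that `dim X > dim V + dim T - card ι`. -/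
def IsAtypical (V X : Set (ι → ℂ)) : Prop :=
  ∃ (M : Submodule ℤ (ι → ℤ)) (η : ι → ℂ), Saturated M ∧ Torsion η ∧
    Maximal (fun Z => Irred Z ∧ Z ⊆ V ∩ special M η) X ∧
    dim V + dim (special M η) < dim X + Fintype.card ι

/-- `V` has only finitely many maximal atypical subvarieties. -/
def FinMax (V : Set (ι → ℂ)) : Prop := {X | Maximal (IsAtypical V) X}.Finite

theorem Torsion.rootU {η : ι → ℂ} (h : Torsion η) (i : ι) : RootU (η i) := by
  obtain ⟨m, hm, h⟩ := h
  exact ⟨m, hm, h i⟩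

theorem torsion_of_rootU {x : ι → ℂ} (hx : ∀ i, RootU (x i)) : Torsion x := by
  classical
  choose m hm h using hx
  refine ⟨∏ i, m i, Finset.prod_pos fun i _ => hm i, fun i => ?_⟩
  rw [← Finset.mul_prod_erase Finset.univ m (Finset.mem_univ i), pow_mul, h, one_pow]

theorem chr_adapted' {L : Submodule ℤ (ι → ℤ)} {e h : ℕ}
    {b : Module.Basis (Fin e ⊕ Fin h) ℤ (ι → ℤ)}
    (hb : ∀ a ∈ L, ∀ j, b.repr a (Sum.inr j) = 0) {y : ι → ℂ} (hy : ∀ i, y i ≠ 0)
    {a : ι → ℤ} (ha : a ∈ L) :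
    chr y a = chr (fun i => chr y (b (Sum.inl i))) (fun i => b.repr a (Sum.inl i)) := by
  have h1 : a = ∑ j, b.repr a j • b j := (b.sum_repr a).symm
  conv_lhs => rw [h1, ← chr_mono (fun j => b j) hy]
  unfold chr
  rw [Fintype.prod_sum_type]
  have h2 : ∏ j, mono (fun j => b j) y (Sum.inr j) ^ b.repr a (Sum.inr j) = 1 :=
    Finset.prod_eq_one fun j _ => by rw [hb a ha j, zpow_zero]
  rw [h2, mul_one]
  rfl

theorem special_irred_dim {M : Submodule ℤ (ι → ℤ)} (hM : Saturated M) {η : ι → ℂ}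
    (hη : ∀ i, η i ≠ 0) :
    Irred (special M η) ∧ dim (special M η) + Module.finrank ℤ M = Fintype.card ι := by
  obtain ⟨e, h, b, hb1, hb2, he⟩ := exists_adapted M hM
  obtain ⟨c, hc1, hc2⟩ := exists_inverse b
  set g : Fin e → ℂ := fun i => chr η (b (Sum.inl i)) with hg
  have hgne : ∀ i, g i ≠ 0 := fun i => chr_ne_zero hη _
  set P : Set (Fin e ⊕ Fin h → ℂ) := prodSet {g} (torus (Fin h)) with hP
  have hPt : InTorus P := by
    intro z hz i
    obtain ⟨w, hw, u, hu, rfl⟩ := exists_elim hz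
    rw [Set.mem_singleton_iff] at hw
    subst hw
    rcases i with i | j
    · exact hgne i
    · exact hu j
  have hPi : Irred P := (irred_singleton g).prod irred_torus
  have hPd : dim P = h := by
    rw [hP, dim_prod (irred_singleton g) irred_torus, dim_singleton, dim_torus, zero_add,
      Fintype.card_fin]
  have hT : special M η = mono c '' P := by
    ext y
    constructor
    · rintro ⟨hy, hyM⟩
      refine ⟨mono (fun j => b j) y, ⟨?_, fun j => mono_ne_zero _ hy _⟩, hc1 ℂ y hy⟩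
      rw [Set.mem_singleton_iff]
      funext i
      exact hyM _ (hb1 i)
    · rintro ⟨z, hz, rfl⟩
      have hy : ∀ i, mono c z i ≠ 0 := fun i => mono_ne_zero c (hPt z hz) i
      refine ⟨hy, fun a ha => ?_⟩
      show chr (mono c z) a = chr η a
      rw [chr_adapted' hb2 hy ha, chr_adapted' hb2 hη ha]
      congr 1
      funext i
      have h1 := congrFun (hc2 ℂ z (hPt z hz)) (Sum.inl i)
      have h2 : chr (mono c z) (b (Sum.inl i)) = z (Sum.inl i) := h1
      rw [h2]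
      have h3 := hz.1
      rw [Set.mem_singleton_iff] at h3
      exact congrFun h3 i
  have hTb : mono (fun j => b j) '' (special M η) = P := by
    rw [hT, ← Set.image_comp]
    ext z
    constructor
    · rintro ⟨z, hz, rfl⟩
      show mono (fun j => b j) (mono c z) ∈ P
      rw [hc2 ℂ z (hPt z hz)]
      exact hz
    · intro hz
      exact ⟨z, hz, hc2 ℂ z (hPt z hz)⟩
  have hTi : Irred (special M η) := by
    rw [hT]
    exact hPi.mono hPt c
  have hTt : InTorus (special M η) := fun y hy => hy.1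
  refine ⟨hTi, ?_⟩
  have h1 : dim (special M η) ≤ h := by
    have h0 := dim_mono_le hPi hPt c
    rw [← hT, hPd] at h0
    exact h0
  have h2 : h ≤ dim (special M η) := by
    have h0 := dim_mono_le hTi hTt (fun j => b j)
    rw [hTb, hPd] at h0
    exact h0
  have h3 : e + h = Fintype.card ι := by
    have h4 := Module.finrank_eq_card_basis b
    rw [Module.finrank_fintype_fun_eq_card] at h4
    simpa using h4.symm
  omega

theorem tl_sat {X : Set (ι → ℂ)} (hX : Irred X) (ht : InTorus X) : Saturated (tl X ht) := by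
  rintro a m hm ⟨c, hc, h⟩
  obtain ⟨c', hc', h1⟩ := IsConst.of_smul hX ht hm h
  exact ⟨c', rootU_of_zpow hm (by rw [h1]; exact hc), hc'⟩

/-- The smallest special subvariety which contains `X`. -/
theorem exists_special {X : Set (ι → ℂ)} (hX : Irred X) (ht : InTorus X) :
    ∃ η : ι → ℂ, Torsion η ∧ X ⊆ special (tl X ht) η := by
  obtain ⟨e, h, b, hb1, hb2, he⟩ := exists_adapted (tl X ht) (tl_sat hX ht)
  obtain ⟨c, hc1, hc2⟩ := exists_inverse b
  choose g hg1 hg2 using hb1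
  set u : Fin e ⊕ Fin h → ℂ := Sum.elim g (fun _ => 1) with hu
  have hu1 : ∀ i, RootU (u i) := by
    rintro (i | j)
    · exact hg1 i
    · exact RootU.one
  have hη1 : ∀ i, RootU (mono c u i) := fun i => RootU.chr hu1 _
  refine ⟨mono c u, torsion_of_rootU hη1, fun x hx => ⟨ht x hx, fun a ha => ?_⟩⟩
  show chr x a = chr (mono c u) a
  rw [chr_adapted' hb2 (ht x hx) ha, chr_adapted' hb2 (fun i => (hη1 i).ne_zero) ha]
  congr 1
  funext i
  rw [hg2 i x hx]
  have h1 := congrFun (hc2 ℂ u fun i => (hu1 i).ne_zero) (Sum.inl i)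
  exact h1.symm

/-! ### Closures -/

/-- the closure in the torus -/
def tcl (X : Set (ι → ℂ)) : Set (ι → ℂ) := {y | (∀ i, y i ≠ 0) ∧ y ∈ zcl X}

theorem subset_tcl {X : Set (ι → ℂ)} (ht : InTorus X) : X ⊆ tcl X := fun x hx =>
  ⟨ht x hx, subset_zcl _ hx⟩

theorem idealOf_tcl {X : Set (ι → ℂ)} (ht : InTorus X) : idealOf (tcl X) = idealOf X := by
  apply le_antisymm (idealOf_mono (subset_tcl ht))
  intro f hf
  rw [mem_idealOf]
  exact fun v hv => hv.2 f hf

theorem irred_tcl {X : Set (ι → ℂ)} (ht : InTorus X) (hX : Irred X) : Irred (tcl X) := by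
  unfold Irred
  rw [idealOf_tcl ht]
  exact hX

theorem dim_tcl {X : Set (ι → ℂ)} (ht : InTorus X) : dim (tcl X) = dim X := by
  unfold dim
  rw [idealOf_tcl ht]

theorem ideal_eq_of_dim {X Y : Set (ι → ℂ)} (hX : Irred X) (hY : Irred Y) (h : X ⊆ Y)
    (hd : dim Y ≤ dim X) : idealOf X = idealOf Y := by
  apply le_antisymm _ (idealOf_mono h)
  intro f hf
  by_contra hf'
  have := dim_lt hX hY (idealOf_mono h) hf hf'
  omega

theorem tcl_eq_of_ideal {X Y : Set (ι → ℂ)} (h : idealOf X = idealOf Y) : tcl X = tcl Y := by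
  unfold tcl zcl
  rw [h]

theorem closed_special (M : Submodule ℤ (ι → ℤ)) (η : ι → ℂ) : ClosedT (special M η) := by
  intro p hp hpz
  refine ⟨hp, fun a ha => ?_⟩
  obtain ⟨f, hf⟩ := exists_binomial' a (∏ i, η i ^ a i)
  have h1 : f ∈ idealOf (special M η) := by
    rw [mem_idealOf]
    exact fun y hy => (hf y hy.1).2 (hy.2 a ha)
  exact (hf p hp).1 (hpz f h1)

theorem closed_inter {X Y : Set (ι → ℂ)} (hX : ClosedT X) (hY : ClosedT Y) :
    ClosedT (X ∩ Y) := by
  intro p hp hpz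
  exact ⟨hX p hp fun f hf => hpz f (idealOf_mono Set.inter_subset_left hf),
    hY p hp fun f hf => hpz f (idealOf_mono Set.inter_subset_right hf)⟩

/-- components -/
theorem exists_comp {C X : Set (ι → ℂ)} (hC : ClosedT C) (hCt : InTorus C) (hX : Irred X)
    (hXC : X ⊆ C) : ∃ Z, Maximal (fun Z => Irred Z ∧ Z ⊆ C) Z ∧ X ⊆ Z := by
  classical
  let p : ℕ → Prop := fun d => ∃ Z, Irred Z ∧ Z ⊆ C ∧ X ⊆ Z ∧ dim Z = d
  have hb : ∀ d, p d → d ≤ Fintype.card ι := by
    rintro d ⟨Z, h1, -, -, rfl⟩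
    have h2 := dim_mono_set h1 (isVar_univ (ι := ι)).irred (Set.subset_univ Z)
    rwa [dim_univ] at h2
  have hp0 : p (dim X) := ⟨X, hX, hXC, subset_rfl, rfl⟩
  obtain ⟨Z, h1, h2, h3, h4⟩ := Nat.findGreatest_spec (hb _ hp0) hp0
  have hmax : ∀ Z', Irred Z' → Z' ⊆ C → X ⊆ Z' → dim Z' ≤ dim Z := by
    intro Z' g1 g2 g3
    rw [h4]
    exact Nat.le_findGreatest (hb _ ⟨Z', g1, g2, g3, rfl⟩) ⟨Z', g1, g2, g3, rfl⟩
  have hZt : InTorus Z := fun y hy => hCt y (h2 hy)
  have hsub : tcl Z ⊆ C := fun y hy => hC y hy.1 fun f hf => hy.2 f (idealOf_mono h2 hf)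
  refine ⟨tcl Z, ⟨⟨irred_tcl hZt h1, hsub⟩, ?_⟩, h3.trans (subset_tcl hZt)⟩
  rintro Z' ⟨g1, g2⟩ hle
  have g3 : X ⊆ Z' := (h3.trans (subset_tcl hZt)).trans hle
  have g4 := hmax Z' g1 g2 g3
  have g5 := ideal_eq_of_dim (irred_tcl hZt h1) g1 hle (by rw [dim_tcl hZt]; exact g4)
  rw [idealOf_tcl hZt] at g5
  rw [tcl_eq_of_ideal g5]
  exact subset_tcl fun y hy => hCt y (g2 hy)

variable {V : Set (ι → ℂ)}

theorem IsAtypical.irred {X : Set (ι → ℂ)} (h : IsAtypical V X) : Irred X ∧ X ⊆ V := by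
  obtain ⟨M, η, -, -, h, -⟩ := h
  exact ⟨h.1.1, h.1.2.trans Set.inter_subset_left⟩

theorem IsAtypical.tcl_eq (ht : InTorus V) (hcl : ClosedT V) {X : Set (ι → ℂ)}
    (h : IsAtypical V X) : tcl X = X := by
  obtain ⟨M, η, -, -, h, -⟩ := h
  have hXt : InTorus X := fun y hy => ht y (h.1.2 hy).1
  apply le_antisymm _ (subset_tcl hXt)
  refine h.2 ⟨irred_tcl hXt h.1.1, ?_⟩ (subset_tcl hXt)
  intro y hy
  exact (closed_inter hcl (closed_special M η)) y hy.1 fun f hf => hy.2 f (idealOf_mono h.1.2 hf)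

theorem IsAtypical.atyp (ht : InTorus V) {X : Set (ι → ℂ)} (h : IsAtypical V X) : Atyp V X := by
  refine ⟨h.irred.1, h.irred.2, ?_⟩
  have hXt : InTorus X := fun y hy => ht y (h.irred.2 hy)
  obtain ⟨M, η, hM, hη, h1, h2⟩ := h
  have h3 := (special_irred_dim hM fun i => (hη.rootU i).ne_zero).2
  have h4 : M ≤ lat X := by
    intro a ha
    apply Submodule.subset_span
    exact ⟨_, RootU.chr hη.rootU a, fun x hx => (h1.1.2 hx).2.2 a ha⟩
  have h5 := Submodule.finrank_mono h4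
  omega

/-- Every atypical subset is contained in an atypical subvariety. -/
theorem Atyp.exists_isAtypical (ht : InTorus V) (hcl : ClosedT V) {X : Set (ι → ℂ)}
    (h : Atyp V X) : ∃ Z, IsAtypical V Z ∧ X ⊆ Z := by
  obtain ⟨hX, hXV, hd⟩ := h
  have hXt : InTorus X := fun y hy => ht y (hXV hy)
  obtain ⟨η, hη, hXη⟩ := exists_special hX hXt
  obtain ⟨Z, h1, h2⟩ := exists_comp (closed_inter hcl (closed_special (tl X hXt) η))
    (fun y hy => ht y hy.1) hX (Set.subset_inter hXV hXη)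
  refine ⟨Z, ⟨tl X hXt, η, tl_sat hX hXt, hη, h1, ?_⟩, h2⟩
  have h3 := (special_irred_dim (tl_sat hX hXt) fun i => (hη.rootU i).ne_zero).2
  have h4 := dim_mono_set hX h1.1.1 h2
  rw [lat_eq hXt] at hd
  omega

theorem exists_max (ht : InTorus V) (hcl : ClosedT V) {X : Set (ι → ℂ)} (h : IsAtypical V X) :
    ∃ Z, Maximal (IsAtypical V) Z ∧ X ⊆ Z := by
  classical
  let p : ℕ → Prop := fun d => ∃ Z, IsAtypical V Z ∧ X ⊆ Z ∧ dim Z = d
  have hb : ∀ d, p d → d ≤ Fintype.card ι := by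
    rintro d ⟨Z, h1, -, rfl⟩
    have h2 := dim_mono_set h1.irred.1 (isVar_univ (ι := ι)).irred (Set.subset_univ Z)
    rwa [dim_univ] at h2
  have hp0 : p (dim X) := ⟨X, h, subset_rfl, rfl⟩
  obtain ⟨Z, h1, h3, h4⟩ := Nat.findGreatest_spec (hb _ hp0) hp0
  refine ⟨Z, ⟨h1, ?_⟩, h3⟩
  intro Z' g1 hle
  have g4 : dim Z' ≤ dim Z := by
    rw [h4]
    exact Nat.le_findGreatest (hb _ ⟨Z', g1, h3.trans hle, rfl⟩) ⟨Z', g1, h3.trans hle, rfl⟩
  have g5 := ideal_eq_of_dim h1.irred.1 g1.irred.1 hle g4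
  rw [← g1.tcl_eq ht hcl, ← h1.tcl_eq ht hcl, tcl_eq_of_ideal g5]

/-- The two forms of the finiteness. -/
theorem finMax_iff (ht : InTorus V) (hcl : ClosedT V) : FinMax V ↔ FinAtyp V := by
  constructor
  · intro H
    refine ⟨_, H, fun Y hY => hY.1.atyp ht, fun X hX => ?_⟩
    obtain ⟨Z, h1, h2⟩ := hX.exists_isAtypical ht hcl
    obtain ⟨Z', h3, h4⟩ := exists_max ht hcl h1
    exact ⟨Z', h3, h2.trans h4⟩
  · rintro ⟨𝒴, h1, h2, h3⟩
    refine h1.subset ?_
    intro X hX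
    obtain ⟨Y, hY, hXY⟩ := h3 X (hX.1.atyp ht)
    obtain ⟨Z, h4, h5⟩ := (h2 Y hY).exists_isAtypical ht hcl
    have h6 : Z ⊆ X := hX.2 h4 (hXY.trans h5)
    have h7 : X = Y := le_antisymm hXY (h5.trans h6)
    rw [h7]
    exact hY

theorem closed_hyper {σ κ : Type} [Fintype σ] [DecidableEq σ] [Fintype κ] (al : σ → ℂ) :
    ClosedT (hyper al κ) := by
  intro p hp hpz
  refine ⟨hp, fun k => ?_⟩
  have h1 : (∑ i, C (al i) * X (k, i) - 1 : MvPolynomial (κ × σ) ℂ) ∈ idealOf (hyper al κ) := by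
    rw [mem_idealOf]
    intro z hz
    rw [map_sub, map_sum, map_one, sub_eq_zero]
    simp only [map_mul, eval_C, eval_X]
    exact hz.2 k
  have h2 := hpz _ h1
  rw [map_sub, map_sum, map_one, sub_eq_zero] at h2
  simp only [map_mul, eval_C, eval_X] at h2
  exact h2

end

end Pool.Agent.T6.H15.HY
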