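import Pool.Agent.T6.H15.HY.Hyp

/-!
# The reduction to the powers of one hyperplane
-/

set_option autoImplicit false

open MvPolynomial

namespace Pool.Agent.T6.H15.HY

open Pool.Agent.T6.H15.ZP Pool.Agent.T6.H15.MZ Pool.Agent.T6.H15.UE

section

variable {σ : Type} [Fintype σ] [DecidableEq σ]

/-- The points with at least `r` independent relations are contained in finitely many atypical
subvarieties of the power of the hyperplane. -/
def PtCov (al : σ → ℂ) (κ : Type) [Fintype κ] (r : ℝ) : Prop :=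
  ∃ 𝒴 : Set (Set (κ × σ → ℂ)), 𝒴.Finite ∧ (∀ Y ∈ 𝒴, Atyp (hyper al κ) Y) ∧
    ∀ z ∈ hyper al κ, r ≤ (Module.finrank ℤ (lat {z}) : ℝ) → ∃ Y ∈ 𝒴, z ∈ Y

theorem hyper_comp {al : σ → ℂ} {κ κ' : Type} {z : κ × σ → ℂ} (hz : z ∈ hyper al κ) (e : κ' → κ) :
    (fun x : κ' × σ => z (e x.1, x.2)) ∈ hyper al κ' :=
  ⟨fun _ => hz.1 _, fun i => hz.2 (e i)⟩

theorem PtCov.equiv {al : σ → ℂ} (hal : ∀ i, al i ≠ 0) (i1 : σ) {κ κ' : Type} [Fintype κ]
    [Fintype κ'] (e : κ' ≃ κ) {r : ℝ} (h : PtCov al κ r) : PtCov al κ' r := by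
  obtain ⟨𝒴, hfin, hY, hcov⟩ := h
  let E : κ' × σ ≃ κ × σ := Equiv.prodCongr e (Equiv.refl _)
  refine ⟨(fun Y => img E Y) '' 𝒴, hfin.image _, ?_, ?_⟩
  · rintro _ ⟨Y, hY', rfl⟩
    obtain ⟨h1, h2, h3⟩ := hY Y hY'
    refine ⟨irred_img h1, ?_, ?_⟩
    · rintro _ ⟨y, hy, rfl⟩
      exact hyper_comp (h2 hy) e
    · dsimp only
      rw [finrank_lat_img, dim_img E h1]
      have h4 := dim_hyper (κ := κ) hal i1
      have h5 := dim_hyper (κ := κ') hal i1
      rw [Fintype.card_congr E] at h5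
      have h6 := Fintype.card_congr e
      omega
  · intro z hz hr
    obtain ⟨Y, hY', h1⟩ := hcov _ (hyper_comp hz e.symm) (by
      have h3 : img (Equiv.prodCongr e.symm (Equiv.refl σ)) {z} =
          {fun x : κ × σ => z (e.symm x.1, x.2)} := by
        unfold img
        rw [Set.image_singleton]
        rfl
      rw [← h3, finrank_lat_img]
      exact hr)
    refine ⟨_, ⟨Y, hY', rfl⟩, ⟨_, h1, ?_⟩⟩
    funext x
    obtain ⟨i, l⟩ := x
    show z (e.symm (e i), l) = z (i, l)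
    rw [Equiv.symm_apply_apply]

/-- Points with many relations and the maximal atypical subvarieties. -/
theorem ptCov_of_finAtyp {al : σ → ℂ} (hal : ∀ i, al i ≠ 0) (i1 : σ) {κ : Type} [Fintype κ]
    (H : FinAtyp (hyper al κ)) {r : ℝ} (hr : (Fintype.card (κ × σ) : ℝ) < r + Fintype.card κ) :
    PtCov al κ r := by
  obtain ⟨𝒴, h1, h2, h3⟩ := H
  refine ⟨𝒴, h1, h2, fun z hz hrz => ?_⟩
  obtain ⟨Y, hY, h4⟩ := h3 {z} ⟨irred_singleton z, Set.singleton_subset_iff.2 hz, by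
    rw [dim_singleton, zero_add]
    have h5 := dim_hyper (κ := κ) hal i1
    have h6 : (Fintype.card (κ × σ) : ℝ) < Module.finrank ℤ (lat {z}) + Fintype.card κ := by
      linarith
    have h7 : Fintype.card (κ × σ) < Module.finrank ℤ (lat {z}) + Fintype.card κ := by
      exact_mod_cast h6
    omega⟩
  exact ⟨Y, hY, h4 rfl⟩

/-- The hyperplane with two distinguished coordinates. -/
theorem exists_Hp {al : σ → ℂ} (hal : ∀ i, al i ≠ 0) {i0 i1 : σ} (hne : i0 ≠ i1) :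
    ∃ H : Hp σ, H.al = al := by
  set n : ℕ := ((Finset.univ.erase i0).erase i1).card with hn
  have h1 : ((n : ℂ) + 1) ≠ 0 := by exact_mod_cast Nat.succ_ne_zero n
  refine ⟨⟨i0, i1, hne, al, hal, 1 / ((n : ℂ) + 1), ?_, ?_⟩, rfl⟩
  · exact one_div_ne_zero h1
  · rw [← hn]
    intro h2
    field_simp at h2
    ring_nf at h2
    exact one_ne_zero h2

theorem no_split' {al : σ → ℂ} (hal : ∀ i, al i ≠ 0) {i0 i1 : σ} (hne : i0 ≠ i1) {e h : ℕ}
    {g : Fin e → ℂ} {V₀ : Set (Fin h → ℂ)} (hS₀ : Split g V₀) (hh : 0 < h)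
    (H : ∀ ε : ℝ, 0 < ε → ∀ m : ℕ, ∃ K, m ≤ K ∧
      PtCov al (Fin K) ((Fintype.card σ - 1 + ε) * K)) : False := by
  classical
  obtain ⟨hS, hcl⟩ := UE.Split.closure hS₀
  set V' : Set (Fin h → ℂ) := {v | (∀ j, v j ≠ 0) ∧ v ∈ zcl V₀} with hV'
  obtain ⟨s0, hs0, hsc⟩ := exists_indep hS.irred
  obtain ⟨Hh, rfl⟩ := exists_Hp hal hne
  obtain ⟨cop⟩ := exists_cop Hh hS.irred hS.torus hsc
  -- the numbers
  set N1 := h + Fintype.card (Bt s0) + (h + ∑ b, cop.N b) with hN1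
  have hN0 : 0 < N1 := by omega
  set A1 := e + (1 + ∑ b, cop.N b) + Fintype.card σ + 1 with hA1
  obtain ⟨K, hK, HK⟩ := H (1 / (2 * N1)) (by positivity) (N1 * (2 * A1 + 2))
  set k := K / N1 with hk
  set j := K % N1 with hj
  have hKeq : K = k * N1 + j := by
    have h1 := Nat.div_add_mod K N1
    rw [← hk, ← hj, mul_comm] at h1
    omega
  have hjN : j < N1 := Nat.mod_lt _ hN0
  have hkbig : 2 * A1 + 2 ≤ k := by
    rw [hk, Nat.le_div_iff_mul_le hN0, mul_comm]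
    exact hK
  obtain ⟨ι', T, _, _, β, copy, idx, W, hP⟩ := exists_pow hS k
  have heq := VT_eq hP hcl hS
  have hirr : Irred (VT T V') := by
    rw [← heq]
    exact irred_img hP.pow.irred
  have hsys : Sys Hh (dat cop T j) (VT T V') ((Finset.univ : Finset T) ×ˢ s0) :=
    sys_dat cop j hS.irred hS.torus (fun a ha c hc => hS.nonconst a ha c hc) hs0 hirr
  set E := dat cop T j with hE
  have hcard : Fintype.card (Gi E) = K := by
    rw [hE, card_gates, hP.cardT, ← hN1, ← hKeq]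
  obtain ⟨𝒴, hfin, hY, hcov⟩ := PtCov.equiv hal i1 (Fintype.equivFinOfCardEq hcard) HK
  -- no member of the family contains the image
  have hUp : (idealOf (image Hh E (VT T V'))).IsPrime := irred_image hsys
  have hex : ∀ Y, Y ∈ 𝒴 → ∃ q, q ∈ idealOf Y ∧ q ∉ idealOf (image Hh E (VT T V')) := by
    intro Y hYm
    by_contra hall
    push Not at hall
    obtain ⟨h1, h2, h3⟩ := hY Y hYm
    have hYt : InTorus Y := fun y hy => (h2 hy).1
    have h4 := upper hsys h1 hYt h2 hall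
    have h5 := dim_hyper (κ := Gi E) hal i1
    rw [lat_eq hYt] at h3
    omega
  choose! q hq hq' using hex
  set P := ∏ Y ∈ hfin.toFinset, q Y with hPdef
  have hPU : P ∉ idealOf (image Hh E (VT T V')) := by
    intro hmem
    obtain ⟨Y, hYm, h3⟩ := (hUp.prod_mem_iff).1 hmem
    rw [Set.Finite.mem_toFinset] at hYm
    exact hq' Y hYm h3
  obtain ⟨F, hF⟩ := exists_pull_rat (fun p : Gi E × σ => C (Hh.al p.2)⁻¹ * nu Hh E p.1 p.2)
    (fun p : Gi E × σ => dn Hh E p.1) P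
  have hF' : ∀ z : (T × Fin h) ⊕ Chn s0 T j → ℂ, eval z (good Hh E) ≠ 0 →
      (eval z F = 0 ↔ eval (phi Hh E z) P = 0) := fun z hz => hF z fun p => dn_ne hz p.1
  obtain ⟨_, ⟨z, ⟨hz, hzg⟩, rfl⟩, hzP⟩ := exists_of_not_mem hPU
  obtain ⟨w0, hw0, x0, -, rfl⟩ := exists_elim hz
  have hzF : eval (Sum.elim w0 x0) F ≠ 0 := fun h1 => hzP ((hF' _ hzg).1 h1)
  have hfix : fixR x0 F ∉ idealOf (VT T V') := not_mem_of_eval hw0 (by rwa [eval_fixR])
  obtain ⟨w, hw, hwF, Λ, hΛ, hdim⟩ := dense_VT hP hcl hS hfix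
  rw [eval_fixR, ← eval_fixL] at hwF
  have hfixL : fixL w F ≠ 0 := by
    intro h0
    rw [h0, map_zero] at hwF
    exact hwF rfl
  obtain ⟨x, hx, hxg, hxF⟩ := exists_good (H := Hh) (E := E) hfixL
  have hr := rank_point hsys (coef_ne cop) (fun c l => exists_coef cop j c l) hw hx hxg hΛ
  rw [card_coef] at hr
  have hy := phi_hyper hsys (z := Sum.elim w x) hw hxg
  have hlat : lat {phi Hh E (Sum.elim w x)} = rl (phi Hh E (Sum.elim w x)) hy.1 := lat_eq _
  have hs1 := (indep_VT (T := T) hs0 hS.irred.nonempty).card_le hirr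
  rw [Fintype.card_coe] at hs1
  have h10 : Fintype.card (Gi E × σ) + k ≤
      Module.finrank ℤ (lat {phi Hh E (Sum.elim w x)}) + K + A1 := by
    rw [hlat]
    omega
  obtain ⟨Y, hYm, h11⟩ := hcov _ hy (by
    have e1 : ((Fintype.card (Gi E × σ) + k : ℕ) : ℝ) ≤
      (Module.finrank ℤ (lat {phi Hh E (Sum.elim w x)}) + K + A1 : ℕ) := by exact_mod_cast h10
    have e0 : Fintype.card (Gi E × σ) = K * Fintype.card σ := by
      rw [Fintype.card_prod, hcard]
    have e2 : ((2 * A1 + 2 : ℕ) : ℝ) ≤ k := by exact_mod_cast hkbig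
    have e3 : (K : ℝ) = k * N1 + j := by exact_mod_cast hKeq
    have e4 : (j : ℝ) ≤ N1 := by exact_mod_cast hjN.le
    have hNr : (0 : ℝ) < N1 := by exact_mod_cast hN0
    have e5 : (1 / (2 * N1) : ℝ) * K ≤ k / 2 + 1 / 2 := by
      rw [e3, div_mul_eq_mul_div, one_mul, div_le_iff₀ (by positivity)]
      nlinarith
    rw [e0] at e1
    push_cast at e1 e2
    nlinarith)
  apply hxF
  rw [hF' _ hxg, hPdef, map_prod]
  refine Finset.prod_eq_zero (i := Y) ((Set.Finite.mem_toFinset _).2 hYm) ?_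
  exact mem_idealOf.1 (hq Y hYm) _ h11

/-- The assumption on the points of the powers of the hyperplane. -/
def Few (al : σ → ℂ) : Prop :=
  ∀ ε : ℝ, 0 < ε → ∀ m : ℕ, ∃ K, m ≤ K ∧ PtCov al (Fin K) ((Fintype.card σ - 1 + ε) * K)

theorem covered_of_few {al : σ → ℂ} (hal : ∀ i, al i ≠ 0) {i0 i1 : σ} (hne : i0 ≠ i1)
    (H : Few al) {ι : Type} [Fintype ι] (V : Set (ι → ℂ)) (ht : InTorus V) (hV : Irred V) :
    Covered V := by
  induction hd : dim V using Nat.strong_induction_on generalizing V with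
  | _ d ih =>
    by_cases hns : Nonspecial V
    · by_cases hde : DenseExcess V 1
      · exfalso
        obtain ⟨e, h, g, V', hS, -, hh⟩ := exists_split hV ht hns hde
        exact no_split' hal hne hS hh H
      · exact covered_of_not_dense ht hV hde fun U hU1 hU2 hU3 => ih _ (by omega) U hU1 hU2 rfl
    · unfold Nonspecial at hns
      push Not at hns
      obtain ⟨a, ha, c, hc, hac⟩ := hns
      refine ⟨{(a, c)}, Set.finite_singleton _, ?_, ?_⟩
      · rintro p rfl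
        exact ⟨ha, hc⟩
      · intro X hX
        exact ⟨(a, c), rfl, fun x hx => hac x (hX.2.1 hx)⟩

/-- **Main theorem.** -/
theorem main {al : σ → ℂ} (hal : ∀ i, al i ≠ 0) (hσ : 2 ≤ Fintype.card σ) : List.TFAE [
    ∀ n, Zilber n,
    ∀ K : ℕ, FinAtyp (hyper al (Fin K)),
    ∀ m : ℕ, ∃ K, m ≤ K ∧ FinAtyp (hyper al (Fin K)),
    ∀ ε : ℝ, 0 < ε → ∀ m : ℕ, ∃ K, m ≤ K ∧
      PtCov al (Fin K) ((Fintype.card σ - 1 + ε) * K)] := by
  obtain ⟨i0, i1, hne⟩ := Fintype.one_lt_card_iff.1 (by omega : 1 < Fintype.card σ)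
  tfae_have 1 → 2 := fun H K => finAtyp_of_zilber H (fun x hx => hx.1) (irred_hyper hal i1)
  tfae_have 2 → 3 := fun H m => ⟨m, le_rfl, H m⟩
  tfae_have 3 → 4 := by
    intro H ε hε m
    obtain ⟨K, hK, h⟩ := H (max m 1)
    refine ⟨K, (le_max_left _ _).trans hK, ptCov_of_finAtyp hal i1 h ?_⟩
    have h1 : (1 : ℝ) ≤ K := by exact_mod_cast (le_max_right m 1).trans hK
    rw [Fintype.card_prod, Fintype.card_fin]
    push_cast
    nlinarith
  tfae_have 4 → 1 := fun H n =>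
    zilber_of_covered fun V ht hV => covered_of_few hal hne H V ht hV
  tfae_finish

end

end Pool.Agent.T6.H15.HY
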