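import Pool.Agent.T6.H15.HY.Data

/-!
# Atypical subvarieties
-/

set_option autoImplicit false

open MvPolynomial

namespace Pool.Agent.T6.H15.HY

open Pool.Agent.T6.H15.ZP Pool.Agent.T6.H15.MZ Pool.Agent.T6.H15.UE

section

variable {ι : Type} [Fintype ι]

/-- The group of all exponents `a` such that `∏ x_i ^ a_i` is constant on `X`, with a root of unity as
value. The smallest special subvariety which contains `X` has the dimension `card ι - rank (lat X)`. -/
def lat (X : Set (ι → ℂ)) : Submodule ℤ (ι → ℤ) :=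
  Submodule.span ℤ {a | ∃ c, RootU c ∧ ∀ x ∈ X, ∏ i, x i ^ a i = c}

theorem lat_eq {X : Set (ι → ℂ)} (ht : InTorus X) : lat X = tl X ht := by
  apply le_antisymm
  · unfold lat
    rw [Submodule.span_le]
    rintro a ⟨c, hc, h⟩
    exact ⟨c, hc, h⟩
  · rintro a ⟨c, hc, h⟩
    exact Submodule.subset_span ⟨c, hc, h⟩

/-- `X` is an irreducible subset of `V` with `dim X > dim V + dim T - card ι`, where `T` is the smallest
special subvariety which contains `X`. -/
def Atyp (V X : Set (ι → ℂ)) : Prop :=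
  Irred X ∧ X ⊆ V ∧ dim V < dim X + Module.finrank ℤ (lat X)

/-- Each atypical subvariety is contained in one of finitely many atypical subvarieties. -/
def FinAtyp (V : Set (ι → ℂ)) : Prop :=
  ∃ 𝒴 : Set (Set (ι → ℂ)), 𝒴.Finite ∧ (∀ Y ∈ 𝒴, Atyp V Y) ∧ ∀ X, Atyp V X → ∃ Y ∈ 𝒴, X ⊆ Y

/-- Each irreducible subset of `V` is contained in one of finitely many, whose defect is at most the
same. -/
def OptT (V : Set (ι → ℂ)) : Prop :=
  ∃ 𝒴 : Set (Set (ι → ℂ)), 𝒴.Finite ∧ (∀ Y ∈ 𝒴, Irred Y ∧ Y ⊆ V) ∧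
    ∀ X : Set (ι → ℂ), Irred X → X ⊆ V → ∃ Y ∈ 𝒴, X ⊆ Y ∧
      dim X + Module.finrank ℤ (lat X) ≤ dim Y + Module.finrank ℤ (lat Y)

theorem optT_step {V : Set (ι → ℂ)} (hV : Irred V)
    (hf : ∃ f, f ∉ idealOf V ∧ ∀ X : Set (ι → ℂ), Irred X → X ⊆ V →
      dim V + Module.finrank ℤ (lat V) + 1 ≤ dim X + Module.finrank ℤ (lat X) → f ∈ idealOf X)
    (ih : ∀ U : Set (ι → ℂ), U ⊆ V → Irred U → dim U < dim V → OptT U) : OptT V := by
  classical
  obtain ⟨f, hf, hall⟩ := hf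
  set U : Set (ι → ℂ) := {x | ∃ X, (Irred X ∧ X ⊆ V ∧
    dim V + Module.finrank ℤ (lat V) + 1 ≤ dim X + Module.finrank ℤ (lat X)) ∧ x ∈ X} with hU
  have hUV : U ⊆ V := by
    rintro x ⟨X, hX, hx⟩
    exact hX.2.1 hx
  have hfU : f ∈ idealOf U := by
    rw [mem_idealOf]
    rintro x ⟨X, hX, hx⟩
    exact mem_idealOf.1 (hall X hX.1 hX.2.1 hX.2.2) x hx
  have hvan : vanishingIdeal ℂ U = idealOf U := by
    ext p
    rw [mem_vanishingIdeal_iff, mem_idealOf]
    simp only [aeval_eq_eval]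
  have hfin : (idealOf U).minimalPrimes.Finite :=
    Ideal.finite_minimalPrimes_of_isNoetherianRing _ _
  let piece : Ideal (MvPolynomial ι ℂ) → Set (ι → ℂ) := fun P => {x | x ∈ U ∧ ∀ p ∈ P, eval x p = 0}
  have hpiece : ∀ P ∈ (idealOf U).minimalPrimes, idealOf (piece P) = P := by
    intro P hP
    apply le_antisymm
    · intro p hp
      by_contra hpP
      rw [← hvan] at hP
      obtain ⟨z, hz, h1, h2⟩ := Helper834.EC.minprime_pt U P hP p hpP
      rw [mem_idealOf] at hp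
      apply h2
      rw [aeval_eq_eval]
      exact hp z ⟨hz, fun q hq => by rw [← aeval_eq_eval]; exact h1 q hq⟩
    · intro p hp
      rw [mem_idealOf]
      exact fun x hx => hx.2 p hp
  have hcov : ∀ P ∈ (idealOf U).minimalPrimes, OptT (piece P) := by
    intro P hP
    have hirr : Irred (piece P) := by
      unfold Irred
      rw [hpiece P hP]
      exact hP.1.1
    apply ih _ (fun x hx => hUV hx.1) hirr
    apply dim_lt hirr hV (idealOf_mono (fun x hx => hUV hx.1)) (f := f)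
    · rw [hpiece P hP]
      exact hP.1.2 hfU
    · exact hf
  choose! 𝒴 h𝒴 using hcov
  refine ⟨insert V (⋃ P ∈ (idealOf U).minimalPrimes, 𝒴 P),
    (hfin.biUnion fun P hP => (h𝒴 P hP).1).insert V, ?_, ?_⟩
  · rintro Y (rfl | hY)
    · exact ⟨hV, subset_rfl⟩
    · simp only [Set.mem_iUnion] at hY
      obtain ⟨P, hP, hY⟩ := hY
      exact ⟨((h𝒴 P hP).2.1 Y hY).1, fun x hx => hUV (((h𝒴 P hP).2.1 Y hY).2 hx).1⟩
  · intro X hX hXV
    by_cases hbig : dim V + Module.finrank ℤ (lat V) + 1 ≤ dim X + Module.finrank ℤ (lat X)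
    · have hXU : X ⊆ U := fun x hx => ⟨X, ⟨hX, hXV, hbig⟩, hx⟩
      have hXp : (idealOf X).IsPrime := hX
      obtain ⟨P, hP, hPX⟩ := Ideal.exists_minimalPrimes_le (idealOf_mono hXU)
      have hXP : X ⊆ piece P := fun x hx => ⟨hXU hx, fun p hp => mem_idealOf.1 (hPX hp) x hx⟩
      obtain ⟨Y, hY, h1, h2⟩ := (h𝒴 P hP).2.2 X hX hXP
      refine ⟨Y, Or.inr ?_, h1, h2⟩
      simp only [Set.mem_iUnion]
      exact ⟨P, hP, hY⟩
    · exact ⟨V, Or.inl rfl, hXV, by omega⟩

theorem optT_of_zilber (H : ∀ m, Zilber m) (V : Set (ι → ℂ)) (ht : InTorus V) (hV : Irred V) :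
    OptT V := by
  induction hd : dim V using Nat.strong_induction_on generalizing V with
  | _ d ih =>
    apply optT_step hV
    · obtain ⟨f, hf, hall⟩ := not_dense_rel H ht hV
      refine ⟨f, hf, ?_⟩
      intro X hX hXV hle
      have htX : InTorus X := fun x hx => ht x (hXV hx)
      rw [lat_eq ht, lat_eq htX] at hle
      exact hall X htX hX hXV hle
    · intro U hUV hU hlt
      exact ih _ (by omega) U (fun x hx => ht x (hUV hx)) hU rfl

/-- The conjecture of Zilber implies that there are only finitely many maximal atypical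
subvarieties. -/
theorem finAtyp_of_zilber (H : ∀ m, Zilber m) {V : Set (ι → ℂ)} (ht : InTorus V) (hV : Irred V) :
    FinAtyp V := by
  obtain ⟨𝒴, h1, h2, h3⟩ := optT_of_zilber H V ht hV
  refine ⟨{Y | Y ∈ 𝒴 ∧ Atyp V Y}, h1.subset fun Y hY => hY.1, fun Y hY => hY.2, ?_⟩
  rintro X ⟨hX, hXV, hd⟩
  obtain ⟨Y, hY, h4, h5⟩ := h3 X hX hXV
  exact ⟨Y, ⟨hY, (h2 Y hY).1, (h2 Y hY).2, by omega⟩, h4⟩

/-! ### Change of the index set -/

variable {κ κ' : Type} [Fintype κ] [Fintype κ']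

theorem finrank_lat_img_le (e : κ' ≃ κ) (X : Set (κ → ℂ)) :
    Module.finrank ℤ (lat (img e X)) ≤ Module.finrank ℤ (lat X) := by
  set ψ := LinearEquiv.funCongrLeft ℤ ℤ e.symm with hψ
  have h1 : (lat (img e X)).map (ψ : (κ' → ℤ) →ₗ[ℤ] (κ → ℤ)) ≤ lat X := by
    unfold lat
    rw [Submodule.map_span_le]
    rintro a ⟨c, hc, h2⟩
    apply Submodule.subset_span
    refine ⟨c, hc, fun x hx => ?_⟩
    rw [← h2 _ ⟨x, hx, rfl⟩]
    show ∏ i, x i ^ a (e.symm i) = ∏ j, x (e j) ^ a j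
    rw [← Equiv.prod_comp e]
    refine Finset.prod_congr rfl fun j _ => ?_
    rw [Equiv.symm_apply_apply]
  have h2 := Submodule.finrank_mono h1
  rwa [LinearEquiv.finrank_map_eq] at h2

theorem finrank_lat_img (e : κ' ≃ κ) (X : Set (κ → ℂ)) :
    Module.finrank ℤ (lat (img e X)) = Module.finrank ℤ (lat X) := by
  apply le_antisymm (finrank_lat_img_le e X)
  have h := finrank_lat_img_le e.symm (img e X)
  rwa [img_img] at h

end

end Pool.Agent.T6.H15.HY
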