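import Pool.Agent.T6.H15.HY.Upper

/-!
# The relations of the points of the image
-/

set_option autoImplicit false

open MvPolynomial

namespace Pool.Agent.T6.H15.HY

open Pool.Agent.T6.H15.ZP Pool.Agent.T6.H15.MZ Pool.Agent.T6.H15.UE

/-- The rank of the preimage of a lattice. -/
theorem finrank_comap {σ τ : Type} [Fintype σ] [Fintype τ] (B : (σ → ℤ) →ₗ[ℤ] (τ → ℤ))
    (N : Submodule ℤ (τ → ℤ)) :
    Fintype.card σ + Module.finrank ℤ N ≤ Fintype.card τ + Module.finrank ℤ (N.comap B) := by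
  have h1 := Submodule.finrank_quotient_add_finrank (LinearMap.ker (N.mkQ.comp B))
  rw [LinearEquiv.finrank_eq (N.mkQ.comp B).quotKerEquivRange, LinearMap.ker_comp,
    Submodule.ker_mkQ, Module.finrank_fintype_fun_eq_card] at h1
  have h2 := Submodule.finrank_quotient_add_finrank N
  rw [Module.finrank_fintype_fun_eq_card] at h2
  have h3 := Submodule.finrank_le (LinearMap.range (N.mkQ.comp B))
  omega

/-- the lattice of the relations of a point -/
def rl {σ : Type} [Fintype σ] (x : σ → ℂ) (hx : ∀ i, x i ≠ 0) : Submodule ℤ (σ → ℤ) :=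
  tl {x} (by rintro y rfl; exact hx)

theorem mem_rl {σ : Type} [Fintype σ] {x : σ → ℂ} {hx : ∀ i, x i ≠ 0} {a : σ → ℤ} :
    a ∈ rl x hx ↔ RootU (chr x a) := by
  constructor
  · rintro ⟨c, hc, h⟩
    rw [h x rfl]
    exact hc
  · intro h
    refine ⟨_, h, ?_⟩
    rintro y rfl
    rfl

/-- If the coordinates of `x` are monomials in those of `y`, up to roots of unity. -/
theorem rank_mono {σ τ : Type} [Fintype σ] [Fintype τ] {x : σ → ℂ} (hx : ∀ i, x i ≠ 0)
    {y : τ → ℂ} (hy : ∀ i, y i ≠ 0) (h : ∀ i, ∃ (c : ℂ) (b : τ → ℤ), RootU c ∧ x i = c * chr y b) :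
    Fintype.card σ + Module.finrank ℤ (rl y hy) ≤
      Fintype.card τ + Module.finrank ℤ (rl x hx) := by
  choose c b hc hxb using h
  have h1 := finrank_comap (Fintype.linearCombination ℤ b : (σ → ℤ) →ₗ[ℤ] (τ → ℤ)) (rl y hy)
  have h2 : (rl y hy).comap (Fintype.linearCombination ℤ b : (σ → ℤ) →ₗ[ℤ] (τ → ℤ)) ≤
      rl x hx := by
    intro a ha
    rw [Submodule.mem_comap, Fintype.linearCombination_apply, mem_rl, chr_sum hy] at ha
    rw [mem_rl]
    have h3 : chr x a = (∏ i, c i ^ a i) * ∏ i, chr y (a i • b i) := by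
      unfold chr
      rw [← Finset.prod_mul_distrib]
      refine Finset.prod_congr rfl fun i _ => ?_
      have h4 : ∏ j, y j ^ (a i • b i) j = chr y (b i) ^ a i := chr_zsmul y (a i) (b i)
      rw [h4, hxb i, mul_zpow]
    rw [h3]
    exact (RootU.chr hc a).mul ha
  have h3 := Submodule.finrank_mono h2
  omega

section

variable {σ : Type} [Fintype σ] [DecidableEq σ] {ι Ch : Type} [Fintype ι] [Fintype Ch]
  {H : Hp σ} {E : Dat ι Ch} {W : Set (ι → ℂ)} {s : Finset ι}

/-- `x` is a monomial in the coordinates of `y`, up to a root of unity. -/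
def MonR {τ : Type} [Fintype τ] (y : τ → ℂ) (x : ℂ) : Prop :=
  ∃ (c : ℂ) (b : τ → ℤ), RootU c ∧ x = c * chr y b

section MonR

variable {τ : Type} [Fintype τ] {y : τ → ℂ}

theorem MonR.root {c : ℂ} (hc : RootU c) : MonR y c :=
  ⟨c, 0, hc, by rw [chr_zero, mul_one]⟩

theorem MonR.coord (i : τ) : MonR y (y i) := by
  classical
  exact ⟨1, Pi.single i 1, RootU.one, by rw [chr_single, one_mul]⟩

theorem MonR.mul (hy : ∀ i, y i ≠ 0) {u v : ℂ} (hu : MonR y u) (hv : MonR y v) :
    MonR y (u * v) := by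
  obtain ⟨c, a, hc, rfl⟩ := hu
  obtain ⟨d, b, hd, rfl⟩ := hv
  exact ⟨c * d, a + b, hc.mul hd, by rw [chr_add hy]; ring⟩

theorem MonR.inv {u : ℂ} (hu : MonR y u) : MonR y u⁻¹ := by
  obtain ⟨c, a, hc, rfl⟩ := hu
  exact ⟨c⁻¹, -a, hc.inv, by rw [chr_neg, mul_inv]⟩

theorem MonR.div (hy : ∀ i, y i ≠ 0) {u v : ℂ} (hu : MonR y u) (hv : MonR y v) :
    MonR y (u / v) := by
  rw [div_eq_mul_inv]
  exact hu.mul hy hv.inv

theorem MonR.pow (hy : ∀ i, y i ≠ 0) {u : ℂ} (hu : MonR y u) (n : ℕ) : MonR y (u ^ n) := by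
  induction n with
  | zero =>
    rw [pow_zero]
    exact MonR.root RootU.one
  | succ n ih =>
    rw [pow_succ]
    exact ih.mul hy hu

theorem MonR.prod (hy : ∀ i, y i ≠ 0) {N : Type} (s : Finset N) {u : N → ℂ}
    (hu : ∀ i ∈ s, MonR y (u i)) : MonR y (∏ i ∈ s, u i) := by
  classical
  induction s using Finset.induction_on with
  | empty =>
    rw [Finset.prod_empty]
    exact MonR.root RootU.one
  | insert i s hi ih =>
    rw [Finset.prod_insert hi]
    exact (hu i (Finset.mem_insert_self i s)).mul hy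
      (ih fun j hj => hu j (Finset.mem_insert_of_mem hj))

end MonR

/-- the indices of the generators -/
abbrev Yi (σ : Type) (E : Dat ι Ch) (A : Type) : Type :=
  ι ⊕ ((Ch ⊕ (Σ c : Ch, Fin (E.L c))) ⊕ (A ⊕ (σ ⊕ Unit)))

/-- The relations of the points of the image. -/
theorem rank_point (h : Sys H E W s) {A : Type} [Fintype A] {α : A → ℂ} (hα0 : ∀ x, α x ≠ 0)
    (hα : ∀ c (l : Fin (E.M c)), ∃ x, E.a c l = α x) {w : ι → ℂ} (hw : w ∈ W) {x : Ch → ℂ}
    (hx : ∀ c, RootU (x c)) (hg : eval (Sum.elim w x) (good H E) ≠ 0)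
    {Λ : Submodule ℤ (ι → ℤ)} (hΛ : TorsOn {w} Λ) :
    Fintype.card (Gi E × σ) + Module.finrank ℤ Λ ≤
      Module.finrank ℤ (rl (phi H E (Sum.elim w x)) (phi_ne h hw hg)) +
        (Fintype.card (Gi E) + s.card + (Fintype.card A + Fintype.card σ + 1)) := by
  classical
  set z : ι ⊕ Ch → ℂ := Sum.elim w x with hz
  let y : Yi σ E A → ℂ := Sum.elim w (Sum.elim (Sum.elim (fun c => H.kap - x c)
    fun p => eval z (PP H E p.1 (p.2 + 1))) (Sum.elim α (Sum.elim H.al fun _ => H.dm)))
  have hy : ∀ i, y i ≠ 0 := by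
    rintro (i | (c | ⟨c, l⟩) | a | i | u)
    · exact h.tor w hw i
    · exact (eval_good hg c).1
    · refine (eval_good hg c).2 _ ?_
      have := l.2
      have := h.L_le c
      show (l : ℕ) + 1 ≤ E.M c
      omega
    · exact hα0 a
    · exact H.hal i
    · exact H.hdm
  have hyc : ∀ i, MonR y (y i) := fun i => MonR.coord i
  -- the sums
  have hP : ∀ c l, l ≤ E.M c → MonR y (eval z (PP H E c l)) := by
    intro c l hl
    have hx0 : MonR y (eval z (PP H E c 0)) := by
      rw [eval_PP_zero]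
      exact MonR.root (hx c)
    rcases Nat.eq_zero_or_pos l with rfl | hpos
    · exact hx0
    · by_cases hlL : l ≤ E.L c
      · have h1 := hyc (Sum.inr (Sum.inl (Sum.inr ⟨c, ⟨l - 1, by omega⟩⟩)))
        have h2 : y (Sum.inr (Sum.inl (Sum.inr ⟨c, ⟨l - 1, by omega⟩⟩))) =
            eval z (PP H E c l) := by
          show eval z (PP H E c (l - 1 + 1)) = _
          rw [Nat.sub_add_cancel hpos]
        rwa [h2] at h1
      · rcases h.hcl c with h3 | ⟨h3, h4⟩
        · omega
        · have h5 : l = E.M c := by omega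
          have h6 : eval z (PP H E c l) = eval z (PP H E c 0) := by
            rw [h5, eval_PP, eval_PP_zero]
            have h7 : eval (fun i => z (Sum.inl i)) (E.ps H c (E.M c)) = 0 :=
              mem_idealOf.1 h4 _ hw
            rw [h7, add_zero]
          rw [h6]
          exact hx0
  have hdn : ∀ g, MonR y (eval z (dn H E g)) := by
    rintro (c | ⟨c, l⟩)
    · rw [dn, map_one]
      exact MonR.root RootU.one
    · exact hP c _ l.2
  have hnu : ∀ g i, MonR y (eval z (nu H E g i)) := by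
    rintro (c | ⟨c, l⟩) i
    · rw [nu]
      split_ifs with h0 h1
      · rw [eval_X]
        exact MonR.root (hx c)
      · rw [map_sub, eval_C, eval_X]
        exact hyc (Sum.inr (Sum.inl (Sum.inl c)))
      · rw [eval_C]
        exact hyc (Sum.inr (Sum.inr (Sum.inr (Sum.inr ()))))
    · rw [nu]
      split_ifs with h0 h1
      · exact hP c _ l.2.le
      · rw [eval_rename, eval_monomial']
        refine MonR.mul hy ?_ (MonR.prod hy _ fun j _ => MonR.pow hy (hyc (Sum.inl j)) _)
        obtain ⟨a, ha⟩ := hα c l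
        rw [ha]
        exact hyc (Sum.inr (Sum.inr (Sum.inl a)))
      · rw [eval_C]
        exact (hyc (Sum.inr (Sum.inr (Sum.inr (Sum.inr ()))))).mul hy
          ((MonR.root (h.hze c)).pow hy _)
  have hphi : ∀ p, ∃ (c : ℂ) (b : Yi σ E A → ℤ), RootU c ∧ phi H E z p = c * chr y b := by
    intro p
    unfold phi
    rw [map_mul, eval_C]
    exact (((hyc (Sum.inr (Sum.inr (Sum.inr (Sum.inl p.2))))).inv).mul hy (hnu p.1 p.2)).div hy
      (hdn p.1)
  have h1 : Fintype.card (Gi E × σ) + Module.finrank ℤ (rl y hy) ≤ Fintype.card (Yi σ E A) +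
      Module.finrank ℤ (rl (phi H E (Sum.elim w x)) (phi_ne h hw hg)) :=
    rank_mono (phi_ne h hw hg) hy hphi
  -- the relations of `w`
  have h2 : Module.finrank ℤ Λ ≤ Module.finrank ℤ (rl y hy) := by
    let ext : (ι → ℤ) →ₗ[ℤ] (Yi σ E A → ℤ) :=
      Fintype.linearCombination ℤ fun i => Pi.single (Sum.inl i) (1 : ℤ)
    have hext : ∀ a : ι → ℤ, ∀ i, ext a (Sum.inl i) = a i := by
      intro a i
      have h3 : ext a = ∑ i, a i • Pi.single (Sum.inl i) (1 : ℤ) :=
        Fintype.linearCombination_apply _ _ _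
      rw [h3, Finset.sum_apply, Finset.sum_eq_single i]
      · simp
      · intro j _ hj
        have h4 : (Sum.inl i : Yi σ E A) ≠ Sum.inl j := fun h => hj (Sum.inl_injective h).symm
        simp [Pi.single_apply, h4]
      · intro h
        exact absurd (Finset.mem_univ i) h
    have hinj : Function.Injective ext := by
      intro a a' haa
      funext i
      rw [← hext a i, haa, hext]
    have h4 : Λ.map ext ≤ rl y hy := by
      rintro _ ⟨a, ha, rfl⟩
      rw [mem_rl]
      have h3 : ext a = ∑ i, a i • Pi.single (Sum.inl i) (1 : ℤ) :=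
        Fintype.linearCombination_apply _ _ _
      rw [h3, chr_sum hy]
      obtain ⟨c, hc, hcw⟩ := hΛ a ha
      have h5 : ∏ i, chr y (a i • (Pi.single (Sum.inl i) (1 : ℤ) : Yi σ E A → ℤ)) = chr w a := by
        unfold chr
        refine Finset.prod_congr rfl fun i _ => ?_
        have h6 := chr_zsmul y (a i) (Pi.single (Sum.inl i) (1 : ℤ) : Yi σ E A → ℤ)
        unfold chr at h6
        rw [h6]
        have h7 := chr_single y (Sum.inl i : Yi σ E A)
        unfold chr at h7
        rw [h7]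
        rfl
      rw [h5, hcw w rfl]
      exact hc
    have h5 := Submodule.finrank_mono h4
    have h6 : Module.finrank ℤ (Λ.map ext) = Module.finrank ℤ Λ :=
      (LinearEquiv.finrank_eq (Submodule.equivMapOfInjective ext hinj Λ)).symm
    omega
  have h3 : Fintype.card (Yi σ E A) = Fintype.card ι + ((Fintype.card Ch + ∑ c, E.L c) +
      (Fintype.card A + (Fintype.card σ + 1))) := by
    rw [Fintype.card_sum, Fintype.card_sum, Fintype.card_sum, Fintype.card_sigma,
      Fintype.card_sum, Fintype.card_sum, Fintype.card_unit]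
    simp only [Fintype.card_fin]
  have h4 := h.card
  have h5 := card_Gi (E := E)
  rw [h3] at h1
  omega

end

end Pool.Agent.T6.H15.HY
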