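import Pool.Agent.T6.H15.HY.Tor

/-!
# Chains of gates over a variety
-/

set_option autoImplicit false

open MvPolynomial

namespace Pool.Agent.T6.H15.HY

open Pool.Agent.T6.H15.ZP Pool.Agent.T6.H15.MZ Pool.Agent.T6.H15.UE

/-- The hyperplane `∑ a_i x_i = 1` with two distinguished coordinates. -/
structure Hp (σ : Type) [Fintype σ] [DecidableEq σ] where
  i0 : σ
  i1 : σ
  ne : i0 ≠ i1
  al : σ → ℂ
  hal : ∀ i, al i ≠ 0
  dm : ℂ
  hdm : dm ≠ 0
  hkap : 1 - (((Finset.univ.erase i0).erase i1).card : ℂ) * dm ≠ 0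

section

variable {σ : Type} [Fintype σ] [DecidableEq σ]

/-- the sum of the dummy terms -/
def Hp.del (H : Hp σ) : ℂ := (((Finset.univ.erase H.i0).erase H.i1).card : ℂ) * H.dm

/-- the constant of the first gate -/
def Hp.kap (H : Hp σ) : ℂ := 1 - H.del

theorem Hp.kap_ne (H : Hp σ) : H.kap ≠ 0 := H.hkap

theorem Hp.sum (H : Hp σ) (u v w : ℂ) (f : σ → ℂ) (h0 : f H.i0 = u) (h1 : f H.i1 = v)
    (h : ∀ i, i ≠ H.i0 → i ≠ H.i1 → f i = w) :
    ∑ i, f i = u + v + (((Finset.univ.erase H.i0).erase H.i1).card : ℂ) * w := by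
  rw [← Finset.add_sum_erase Finset.univ f (Finset.mem_univ H.i0),
    ← Finset.add_sum_erase (Finset.univ.erase H.i0) f
      (Finset.mem_erase.2 ⟨H.ne.symm, Finset.mem_univ _⟩), h0, h1]
  rw [Finset.sum_congr rfl (g := fun _ => w), Finset.sum_const, nsmul_eq_mul]
  · ring
  · intro i hi
    rw [Finset.mem_erase, Finset.mem_erase] at hi
    exact h i hi.2.1 hi.1

/-- The powers of the hyperplane. -/
def hyper (al : σ → ℂ) (κ : Type) : Set (κ × σ → ℂ) :=
  {z | (∀ p, z p ≠ 0) ∧ ∀ k, ∑ i, al i * z (k, i) = 1}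

/-- chains of gates -/
structure Dat (ι Ch : Type) where
  M : Ch → ℕ
  L : Ch → ℕ
  m : Ch → ℕ → (ι →₀ ℕ)
  a : Ch → ℕ → ℂ
  ze : Ch → ℂ
  vis : ι → Ch

variable {ι Ch : Type} [Fintype ι] [Fintype Ch]

/-- the partial sums -/
noncomputable def Dat.ps (E : Dat ι Ch) (H : Hp σ) (c : Ch) (l : ℕ) : MvPolynomial ι ℂ :=
  ∑ j ∈ Finset.range l, (monomial (E.m c j) (E.a c j) + C (H.del * E.ze c ^ j))

theorem ps_zero (E : Dat ι Ch) (H : Hp σ) (c : Ch) : E.ps H c 0 = 0 := by simp [Dat.ps]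

theorem ps_succ (E : Dat ι Ch) (H : Hp σ) (c : Ch) (l : ℕ) : E.ps H c (l + 1) =
    E.ps H c l + (monomial (E.m c l) (E.a c l) + C (H.del * E.ze c ^ l)) :=
  Finset.sum_range_succ _ _

/-- the indices of the gates -/
abbrev Gi (E : Dat ι Ch) : Type := Ch ⊕ (Σ c : Ch, Fin (E.M c))

/-- All the properties. -/
structure Sys (H : Hp σ) (E : Dat ι Ch) (W : Set (ι → ℂ)) (s : Finset ι) : Prop where
  irr : Irred W
  tor : InTorus W
  ncon : ∀ (a : ι → ℤ) (c : ℂ), IsConst W a c → a = 0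
  ind : Indep W (fun i : s => (i : ι))
  ha : ∀ c l, E.a c l ≠ 0
  hze : ∀ c, RootU (E.ze c)
  hcl : ∀ c, E.L c = E.M c ∨ (E.L c + 1 = E.M c ∧ E.ps H c (E.M c) ∈ idealOf W)
  hdist : ∀ c l l', l < l' → l' ≤ E.L c → E.ps H c l' - E.ps H c l ∉ idealOf W
  hone : ∀ c l, l ≤ E.L c → E.ps H c l + C H.kap ∉ idealOf W
  vM : ∀ i, 0 < E.M (E.vis i)
  vm : ∀ i, E.m (E.vis i) 0 = Finsupp.single i 1
  va : ∀ i, E.a (E.vis i) 0 = 1
  dep : ∀ b, b ∉ s → ∃ c, E.L c + 1 = E.M c ∧ ∃ p : MvPolynomial (Option s) ℂ, p ≠ 0 ∧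
    E.ps H c (E.M c) = rename (fun o : Option s => (o.elim b (fun a => (a : ι)) : ι)) p
  card : Fintype.card ι + ∑ c, E.L c = s.card + ∑ c, E.M c

theorem Sys.L_le {H : Hp σ} {E : Dat ι Ch} {W : Set (ι → ℂ)} {s : Finset ι} (h : Sys H E W s)
    (c : Ch) : E.L c ≤ E.M c := by
  rcases h.hcl c with h1 | ⟨h1, -⟩ <;> omega

section Map

variable (H : Hp σ) (E : Dat ι Ch)

/-- the sums with masks -/
noncomputable def PP (c : Ch) (l : ℕ) : MvPolynomial (ι ⊕ Ch) ℂ :=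
  X (Sum.inr c) + rename Sum.inl (E.ps H c l)

theorem eval_PP (z : ι ⊕ Ch → ℂ) (c : Ch) (l : ℕ) : eval z (PP H E c l) =
    z (Sum.inr c) + eval (fun i => z (Sum.inl i)) (E.ps H c l) := by
  unfold PP
  rw [map_add, eval_X, eval_rename]
  rfl

theorem eval_PP_succ (z : ι ⊕ Ch → ℂ) (c : Ch) (l : ℕ) : eval z (PP H E c (l + 1)) =
    eval z (PP H E c l) + (eval (fun i => z (Sum.inl i)) (monomial (E.m c l) (E.a c l)) +
      H.del * E.ze c ^ l) := by
  rw [eval_PP, eval_PP, ps_succ, map_add, map_add, eval_C, add_assoc]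

theorem eval_PP_zero (z : ι ⊕ Ch → ℂ) (c : Ch) : eval z (PP H E c 0) = z (Sum.inr c) := by
  rw [eval_PP, ps_zero, map_zero, add_zero]

/-- numerators, without the coefficients -/
noncomputable def nu : Gi E → σ → MvPolynomial (ι ⊕ Ch) ℂ
  | Sum.inl c, i => if i = H.i0 then X (Sum.inr c) else
      if i = H.i1 then C H.kap - X (Sum.inr c) else C H.dm
  | Sum.inr ⟨c, l⟩, i => if i = H.i0 then PP H E c l else
      if i = H.i1 then rename Sum.inl (monomial (E.m c l) (E.a c l)) else C (H.dm * E.ze c ^ (l : ℕ))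

/-- denominators -/
noncomputable def dn : Gi E → MvPolynomial (ι ⊕ Ch) ℂ
  | Sum.inl _ => 1
  | Sum.inr ⟨c, l⟩ => PP H E c (l + 1)

/-- the map -/
noncomputable def phi (z : ι ⊕ Ch → ℂ) : Gi E × σ → ℂ :=
  fun p => eval z (C (H.al p.2)⁻¹ * nu H E p.1 p.2) / eval z (dn H E p.1)

theorem al_phi (z : ι ⊕ Ch → ℂ) (g : Gi E) (i : σ) :
    H.al i * phi H E z (g, i) = eval z (nu H E g i) / eval z (dn H E g) := by
  unfold phi
  dsimp only
  rw [map_mul, eval_C, mul_div_assoc, ← mul_assoc, mul_inv_cancel₀ (H.hal i), one_mul]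

/-- the polynomial which defines the complement of the domain -/
noncomputable def good : MvPolynomial (ι ⊕ Ch) ℂ :=
  ∏ c, ((C H.kap - X (Sum.inr c)) * ∏ l ∈ Finset.range (E.M c + 1), PP H E c l)

variable {H E}

theorem eval_good {z : ι ⊕ Ch → ℂ} (hz : eval z (good H E) ≠ 0) (c : Ch) :
    H.kap - z (Sum.inr c) ≠ 0 ∧ ∀ l ≤ E.M c, eval z (PP H E c l) ≠ 0 := by
  unfold good at hz
  rw [map_prod, Finset.prod_ne_zero_iff] at hz
  have h1 := hz c (Finset.mem_univ c)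
  rw [map_mul, map_prod, map_sub, eval_C, eval_X] at h1
  refine ⟨left_ne_zero_of_mul h1, fun l hl => ?_⟩
  exact Finset.prod_ne_zero_iff.1 (right_ne_zero_of_mul h1) l (Finset.mem_range.2 (by omega))

theorem dn_ne {z : ι ⊕ Ch → ℂ} (hz : eval z (good H E) ≠ 0) (g : Gi E) :
    eval z (dn H E g) ≠ 0 := by
  rcases g with c | ⟨c, l⟩
  · rw [dn, map_one]
    exact one_ne_zero
  · exact (eval_good hz c).2 _ l.2

theorem eval_mono_ne {x : ι → ℂ} (hx : ∀ i, x i ≠ 0) {a : ℂ} (ha : a ≠ 0) (m : ι →₀ ℕ) :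
    eval x (monomial m a) ≠ 0 := by
  rw [eval_monomial]
  exact mul_ne_zero ha (Finset.prod_ne_zero_iff.2 fun i _ => pow_ne_zero _ (hx i))

variable {W : Set (ι → ℂ)} {s : Finset ι}

theorem nu_ne (h : Sys H E W s) {z : ι ⊕ Ch → ℂ} (hw : (fun i => z (Sum.inl i)) ∈ W)
    (hz : eval z (good H E) ≠ 0) (g : Gi E) (i : σ) : eval z (nu H E g i) ≠ 0 := by
  rcases g with c | ⟨c, l⟩
  · rw [nu]
    split_ifs with h1 h2
    · have h3 := (eval_good hz c).2 0 (Nat.zero_le _)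
      rw [eval_PP_zero] at h3
      rwa [eval_X]
    · rw [map_sub, eval_C, eval_X]
      exact (eval_good hz c).1
    · rw [eval_C]
      exact H.hdm
  · rw [nu]
    split_ifs with h1 h2
    · exact (eval_good hz c).2 _ l.2.le
    · rw [eval_rename]
      exact eval_mono_ne (h.tor _ hw) (h.ha c l) _
    · rw [eval_C]
      exact mul_ne_zero H.hdm (pow_ne_zero _ (h.hze c).ne_zero)

theorem phi_ne (h : Sys H E W s) {z : ι ⊕ Ch → ℂ} (hw : (fun i => z (Sum.inl i)) ∈ W)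
    (hz : eval z (good H E) ≠ 0) (p : Gi E × σ) : phi H E z p ≠ 0 := by
  have h1 := al_phi H E z p.1 p.2
  have h2 := div_ne_zero (nu_ne h hw hz p.1 p.2) (dn_ne hz p.1)
  rw [← h1] at h2
  exact right_ne_zero_of_mul h2

theorem sum_nu (z : ι ⊕ Ch → ℂ) (g : Gi E) :
    ∑ i, eval z (nu H E g i) = eval z (dn H E g) := by
  rcases g with c | ⟨c, l⟩
  · rw [H.sum (z (Sum.inr c)) (H.kap - z (Sum.inr c)) H.dm, dn, map_one]
    · unfold Hp.kap Hp.del
      ring
    · rw [nu, if_pos rfl, eval_X]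
    · rw [nu, if_neg H.ne.symm, if_pos rfl, map_sub, eval_C, eval_X]
    · intro i h0 h1
      rw [nu, if_neg h0, if_neg h1, eval_C]
  · rw [H.sum (eval z (PP H E c l)) (eval (fun i => z (Sum.inl i)) (monomial (E.m c l) (E.a c l)))
      (H.dm * E.ze c ^ (l : ℕ)), dn, eval_PP_succ]
    · unfold Hp.del
      ring
    · rw [nu, if_pos rfl]
    · rw [nu, if_neg H.ne.symm, if_pos rfl, eval_rename]
      rfl
    · intro i h0 h1
      rw [nu, if_neg h0, if_neg h1, eval_C]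

theorem phi_hyper (h : Sys H E W s) {z : ι ⊕ Ch → ℂ} (hw : (fun i => z (Sum.inl i)) ∈ W)
    (hz : eval z (good H E) ≠ 0) : phi H E z ∈ hyper H.al (Gi E) := by
  refine ⟨phi_ne h hw hz, fun g => ?_⟩
  rw [Finset.sum_congr rfl fun i _ => al_phi H E z g i, ← Finset.sum_div, sum_nu]
  exact div_self (dn_ne hz g)

/-- the image -/
noncomputable def image (H : Hp σ) (E : Dat ι Ch) (W : Set (ι → ℂ)) : Set (Gi E × σ → ℂ) :=
  phi H E '' {z | z ∈ prodSet W Set.univ ∧ eval z (good H E) ≠ 0}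

theorem fix_good (w : ι → ℂ) : fixL w (good H E) ≠ 0 := by
  unfold good
  rw [map_prod, Finset.prod_ne_zero_iff]
  intro c _
  rw [map_mul, map_prod]
  have key : ∀ d : ℂ, ∀ q : MvPolynomial (ι ⊕ Ch) ℂ, (∀ x : Ch → ℂ, eval (Sum.elim w x) q = 0 →
      x c = d) → fixL w q ≠ 0 := by
    intro d q hq h0
    have h1 := eval_fixL w (fun _ : Ch => d + 1) q
    rw [h0, map_zero] at h1
    have h2 := hq _ h1.symm
    simp at h2
  refine mul_ne_zero (key H.kap _ fun x hx => ?_) (Finset.prod_ne_zero_iff.2 fun l _ =>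
    key (-eval w (E.ps H c l)) _ fun x hx => ?_)
  · rw [map_sub, eval_C, eval_X] at hx
    exact (sub_eq_zero.1 hx).symm
  · rw [eval_PP] at hx
    have h1 : x c + eval w (E.ps H c l) = 0 := hx
    linear_combination h1

theorem exists_tors {q : MvPolynomial Ch ℂ} (hq : q ≠ 0) :
    ∃ x : Ch → ℂ, (∀ c, RootU (x c)) ∧ eval x q ≠ 0 := by
  by_contra hcon
  push Not at hcon
  apply hq
  refine MvPolynomial.funext_set (p := q) (q := 0) (fun _ : Ch => {c : ℂ | RootU c})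
    (fun _ => infinite_rootU) ?_
  intro x hx
  rw [map_zero]
  exact hcon x fun i => hx i (Set.mem_univ i)

theorem exists_good {w : ι → ℂ} {F : MvPolynomial (ι ⊕ Ch) ℂ} (hF : fixL w F ≠ 0) :
    ∃ x : Ch → ℂ, (∀ c, RootU (x c)) ∧ eval (Sum.elim w x) (good H E) ≠ 0 ∧
      eval (Sum.elim w x) F ≠ 0 := by
  obtain ⟨x, h1, h2⟩ := exists_tors (mul_ne_zero (fix_good (H := H) (E := E) w) hF)
  rw [← map_mul, eval_fixL, map_mul] at h2
  exact ⟨x, h1, left_ne_zero_of_mul h2, right_ne_zero_of_mul h2⟩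

theorem good_not_mem (h : Sys H E W s) : good H E ∉ idealOf (prodSet W (Set.univ : Set (Ch → ℂ))) := by
  obtain ⟨w, hw⟩ := h.irr.nonempty
  obtain ⟨x, -, h1, -⟩ := exists_good (H := H) (E := E) (w := w) (F := 1) (by
    rw [map_one]
    exact one_ne_zero)
  exact not_mem_of_eval (elim_mem hw (Set.mem_univ x)) h1

theorem irred_image (h : Sys H E W s) : Irred (image H E W) :=
  irred_rat (h.irr.prod isVar_univ.irred) (fun p : Gi E × σ => C (H.al p.2)⁻¹ * nu H E p.1 p.2)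
    (fun p : Gi E × σ => dn H E p.1) (good_not_mem h) fun _ _ hz p => dn_ne hz p.1

theorem image_hyper (h : Sys H E W s) : image H E W ⊆ hyper H.al (Gi E) := by
  rintro _ ⟨z, ⟨hz, hg⟩, rfl⟩
  exact phi_hyper h hz.1 hg

theorem image_torus (h : Sys H E W s) : InTorus (image H E W) := fun y hy =>
  (image_hyper h hy).1

end Map

end

end Pool.Agent.T6.H15.HY
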