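import Pool.Agent.T6.H15.UE.Pts

/-!
# Constant characters and the principal ideal theorem in tori
-/

set_option autoImplicit false

open MvPolynomial

namespace Pool.Agent.T6.H15.HY

open Pool.Agent.T6.H15.ZP Pool.Agent.T6.H15.MZ Pool.Agent.T6.H15.UE

section

variable {ι : Type} [Fintype ι]

/-- the principal ideal theorem -/
theorem krull_torus {Y U : Set (ι → ℂ)} (hY : Irred Y) (hU : Irred U) (hUt : InTorus U)
    (h : idealOf Y ≤ idealOf U) {f : MvPolynomial ι ℂ} (hf : f ∈ idealOf U) :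
    ∃ Y', Irred Y' ∧ InTorus Y' ∧ idealOf Y ≤ idealOf Y' ∧ idealOf Y' ≤ idealOf U ∧
      f ∈ idealOf Y' ∧ dim Y ≤ dim Y' + 1 := by
  classical
  have hYp : (idealOf Y).IsPrime := hY
  have hUp : (idealOf U).IsPrime := hU
  have hle : idealOf Y ⊔ Ideal.span {f} ≤ idealOf U := by
    rw [sup_le_iff]
    refine ⟨h, ?_⟩
    rw [Ideal.span_le, Set.singleton_subset_iff]
    exact hf
  obtain ⟨q, hq, hqU⟩ := Ideal.exists_minimalPrimes_le hle
  have hqp : q.IsPrime := hq.1.1
  have hYq : idealOf Y ≤ q := le_sup_left.trans hq.1.2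
  have hfq : f ∈ q := hq.1.2 ((le_sup_right : Ideal.span {f} ≤ idealOf Y ⊔ Ideal.span {f})
    (Ideal.mem_span_singleton_self f))
  set Y' : Set (ι → ℂ) := {y | (∀ i, y i ≠ 0) ∧ ∀ g ∈ q, eval y g = 0} with hY'
  have hI : idealOf Y' = q := by
    apply le_antisymm
    · intro g hg
      rw [mem_idealOf] at hg
      set D : MvPolynomial ι ℂ := ∏ i, X i with hD
      have h1 : g * D ∈ vanishingIdeal ℂ (zeroLocus ℂ q) := by
        rw [mem_vanishingIdeal_iff]
        intro y hy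
        rw [mem_zeroLocus_iff] at hy
        rw [aeval_eq_eval]
        by_cases hyl : ∀ i, y i ≠ 0
        · rw [map_mul, hg y ⟨hyl, fun p hp => by rw [← aeval_eq_eval]; exact hy p hp⟩, zero_mul]
        · push Not at hyl
          obtain ⟨i, hi⟩ := hyl
          have h2 : eval y D = 0 := by
            rw [hD, map_prod]
            apply Finset.prod_eq_zero (Finset.mem_univ i)
            rw [eval_X]
            exact hi
          rw [map_mul, h2, mul_zero]
      rw [vanishingIdeal_zeroLocus_eq_radical, hqp.radical] at h1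
      rcases hqp.mem_or_mem h1 with h2 | h2
      · exact h2
      · exfalso
        obtain ⟨u, hu⟩ := hU.nonempty
        have h3 := mem_idealOf.1 (hqU h2) u hu
        rw [hD, map_prod, Finset.prod_eq_zero_iff] at h3
        obtain ⟨i, -, h4⟩ := h3
        rw [eval_X] at h4
        exact hUt u hu i h4
    · intro g hg
      rw [mem_idealOf]
      exact fun y hy => hy.2 g hg
  have hYi : Irred Y' := by
    unfold Irred
    rw [hI]
    exact hqp
  refine ⟨Y', hYi, fun y hy => hy.1, by rw [hI]; exact hYq, by rw [hI]; exact hqU,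
    by rw [hI]; exact hfq, ?_⟩
  have h1 := R452.SZ.trdeg_le_of_minimalPrimes (K := ℂ) (idealOf Y) q f hq
  have h2 := trdeg_eq_dim hYi
  rw [hI] at h2
  rw [trdeg_eq_dim hY, h2] at h1
  exact_mod_cast h1

/-- A constant character of `Y` is constant on the subsets of the closure of `Y`. -/
theorem const_closure {Y U : Set (ι → ℂ)} (hY : InTorus Y) (hU : InTorus U)
    (h : idealOf Y ≤ idealOf U) {a : ι → ℤ} {c : ℂ} (hc : IsConst Y a c) : IsConst U a c := by
  obtain ⟨f, hf⟩ := exists_binomial' a c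
  have h1 : f ∈ idealOf Y := by
    rw [mem_idealOf]
    exact fun y hy => (hf y (hY y hy)).2 (hc y hy)
  intro y hy
  exact (hf y (hU y hy)).1 (mem_idealOf.1 (h h1) y hy)

theorem constLat_le {Y U : Set (ι → ℂ)} (hY : InTorus Y) (hU : InTorus U)
    (h : idealOf Y ≤ idealOf U) : constLat Y hY ≤ constLat U hU := by
  rintro a ⟨c, hc⟩
  exact ⟨c, const_closure hY hU h hc⟩

theorem constLat_sat {Y : Set (ι → ℂ)} (hI : Irred Y) (hY : InTorus Y) {a : ι → ℤ} {m : ℤ}
    (hm : m ≠ 0) (ha : m • a ∈ constLat Y hY) : a ∈ constLat Y hY := by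
  obtain ⟨c, hc⟩ := ha
  obtain ⟨c', h3, -⟩ := IsConst.of_smul hI hY hm hc
  exact ⟨c', h3⟩

theorem tl_le_constLat {Y : Set (ι → ℂ)} (hY : InTorus Y) : tl Y hY ≤ constLat Y hY := by
  rintro a ⟨c, -, hc⟩
  exact ⟨c, hc⟩

theorem finrank_lt_of' {L L' : Submodule ℤ (ι → ℤ)} (hL : L ≤ L')
    (hsat : ∀ (a : ι → ℤ) (m : ℤ), m ≠ 0 → m • a ∈ L → a ∈ L) {a : ι → ℤ} (ha : a ∈ L')
    (ha' : a ∉ L) : Module.finrank ℤ L + 1 ≤ Module.finrank ℤ L' := by
  let φ : (L × ℤ) →ₗ[ℤ] L' := (Submodule.inclusion hL).coprod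
    (LinearMap.toSpanSingleton ℤ L' ⟨a, ha⟩)
  have hφ : ∀ p, ((φ p : L') : ι → ℤ) = (p.1 : ι → ℤ) + p.2 • a := by
    intro p
    show (((Submodule.inclusion hL).coprod
      (LinearMap.toSpanSingleton ℤ L' ⟨a, ha⟩) p : L') : ι → ℤ) = _
    rw [LinearMap.coprod_apply]
    rfl
  have hinj : Function.Injective φ := by
    rw [← LinearMap.ker_eq_bot, Submodule.eq_bot_iff]
    intro p hp
    rw [LinearMap.mem_ker] at hp
    have h1 := hφ p
    rw [hp] at h1
    have h2 : p.2 = 0 := by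
      by_contra hne
      apply ha'
      apply hsat a p.2 hne
      have h3 : p.2 • a = -(p.1 : ι → ℤ) := by
        rw [eq_neg_iff_add_eq_zero, add_comm]
        exact h1.symm
      rw [h3]
      exact L.neg_mem p.1.2
    have h4 : p.1 = 0 := by
      apply Subtype.ext
      rw [h2, zero_smul, add_zero] at h1
      exact h1.symm
    exact Prod.ext h4 h2
  have h := LinearMap.finrank_le_finrank_of_injective hinj
  rwa [Module.finrank_prod, Module.finrank_self] at h

theorem finrank_le_card (L : Submodule ℤ (ι → ℤ)) : Module.finrank ℤ L ≤ Fintype.card ι := by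
  have h := Submodule.finrank_le L
  rwa [Module.finrank_fintype_fun_eq_card] at h

/-- Intersections with all cosets of subtori which contain `U`. -/
theorem exists_full_const {U : Set (ι → ℂ)} (hU : Irred U) (hUt : InTorus U) (n : ℕ) :
    ∀ (Y : Set (ι → ℂ)) (hYt : InTorus Y), Irred Y → idealOf Y ≤ idealOf U →
      Fintype.card ι ≤ Module.finrank ℤ (constLat Y hYt) + n →
      ∃ (Y' : Set (ι → ℂ)) (hYt' : InTorus Y'), Irred Y' ∧ idealOf Y ≤ idealOf Y' ∧
        idealOf Y' ≤ idealOf U ∧ constLat U hUt ≤ constLat Y' hYt' ∧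
        dim Y + Module.finrank ℤ (constLat Y hYt) ≤
          dim Y' + Module.finrank ℤ (constLat Y' hYt') := by
  induction n with
  | zero =>
    intro Y hYt hY h hn
    by_cases hle : constLat U hUt ≤ constLat Y hYt
    · exact ⟨Y, hYt, hY, le_rfl, h, hle, le_rfl⟩
    · exfalso
      obtain ⟨a, ha, ha'⟩ := SetLike.not_le_iff_exists.1 hle
      have h1 := finrank_lt_of' (constLat_le hYt hUt h)
        (fun a m hm hma => constLat_sat hY hYt hm hma) ha ha'
      have h2 := finrank_le_card (constLat U hUt)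
      omega
  | succ n ih =>
    intro Y hYt hY h hn
    by_cases hle : constLat U hUt ≤ constLat Y hYt
    · exact ⟨Y, hYt, hY, le_rfl, h, hle, le_rfl⟩
    · obtain ⟨a, ha, ha'⟩ := SetLike.not_le_iff_exists.1 hle
      obtain ⟨c, hc⟩ := ha
      obtain ⟨f, hf⟩ := exists_binomial' a c
      have hfU : f ∈ idealOf U := by
        rw [mem_idealOf]
        exact fun y hy => (hf y (hUt y hy)).2 (hc y hy)
      obtain ⟨Y1, g1, g2, g3, g4, g5, g6⟩ := krull_torus hY hU hUt h hfU
      have haY1 : a ∈ constLat Y1 g2 := ⟨c, fun y hy =>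
        (hf y (g2 y hy)).1 (mem_idealOf.1 g5 y hy)⟩
      have h2 := finrank_lt_of' (constLat_le hYt g2 g3)
        (fun a m hm hma => constLat_sat hY hYt hm hma) haY1 ha'
      obtain ⟨Y2, k1, k2, k3, k4, k5, k6⟩ := ih Y1 g2 g1 g4 (by omega)
      exact ⟨Y2, k1, k2, g3.trans k3, k4, k5, by omega⟩

/-! ### Monomials with constant factors -/

/-- Monomial maps with constant factors. -/
noncomputable def monoC {κ : Type} (k : κ → ℂ) (b : κ → ι → ℤ) (x : ι → ℂ) : κ → ℂ := fun j => k j * chr x (b j)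

theorem monoC_ne_zero {κ : Type} {k : κ → ℂ} (hk : ∀ j, k j ≠ 0) (b : κ → ι → ℤ) {x : ι → ℂ}
    (hx : ∀ i, x i ≠ 0) (j : κ) : monoC k b x j ≠ 0 := mul_ne_zero (hk j) (chr_ne_zero hx _)

theorem exists_pullC {κ : Type} [Finite κ] (k : κ → ℂ) (b : κ → ι → ℤ) (G : MvPolynomial κ ℂ) :
    ∃ H : MvPolynomial ι ℂ, ∀ x : ι → ℂ, (∀ i, x i ≠ 0) →
      (eval x H = 0 ↔ eval (monoC k b x) G = 0) := by
  obtain ⟨H, hH⟩ := exists_pull b (bind₁ (fun j => C (k j) * X j) G)
  refine ⟨H, fun x hx => ?_⟩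
  rw [hH x hx]
  have h1 : eval (mono b x) (bind₁ (fun j => C (k j) * X j) G) = eval (monoC k b x) G := by
    rw [← aeval_eq_eval, ← aeval_eq_eval, aeval_bind₁]
    congr 2
    funext j
    rw [map_mul, aeval_X]
    congr 1
    rw [aeval_eq_eval, eval_C]
  rw [h1]

theorem monoC_eq {κ : Type} [Fintype κ] [DecidableEq κ] (k : κ → ℂ) (b : κ → ι → ℤ)
    (X : Set (ι → ℂ)) : monoC k b '' X =
      mono (fun j : κ => (Sum.elim (Pi.single j 1) (b j) : κ ⊕ ι → ℤ)) '' prodSet {k} X := by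
  have h : ∀ x : ι → ℂ, mono (fun j : κ => (Sum.elim (Pi.single j 1) (b j) : κ ⊕ ι → ℤ))
      (Sum.elim k x) = monoC k b x := by
    intro x
    funext j
    show chr (Sum.elim k x) (Sum.elim (Pi.single j 1) (b j)) = k j * chr x (b j)
    unfold chr
    rw [Fintype.prod_sum_type]
    simp only [Sum.elim_inl, Sum.elim_inr]
    congr 1
    exact chr_single k j
  ext y
  constructor
  · rintro ⟨x, hx, rfl⟩
    exact ⟨Sum.elim k x, elim_mem rfl hx, h x⟩
  · rintro ⟨z, hz, rfl⟩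
    obtain ⟨w, hw, x, hx, rfl⟩ := exists_elim hz
    rw [Set.mem_singleton_iff] at hw
    subst hw
    exact ⟨x, hx, (h x).symm⟩

theorem torus_prod {κ : Type} {k : κ → ℂ} (hk : ∀ j, k j ≠ 0) {X : Set (ι → ℂ)}
    (ht : InTorus X) : InTorus (prodSet {k} X) := by
  intro z hz i
  obtain ⟨w, hw, x, hx, rfl⟩ := exists_elim hz
  rw [Set.mem_singleton_iff] at hw
  subst hw
  rcases i with i | i
  · exact hk i
  · exact ht x hx i

theorem irred_monoC {κ : Type} [Fintype κ] {k : κ → ℂ} (hk : ∀ j, k j ≠ 0) (b : κ → ι → ℤ)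
    {X : Set (ι → ℂ)} (hX : Irred X) (ht : InTorus X) : Irred (monoC k b '' X) := by
  classical
  rw [monoC_eq]
  exact ((irred_singleton k).prod hX).mono (torus_prod hk ht) _

theorem dim_monoC_le {κ : Type} [Fintype κ] {k : κ → ℂ} (hk : ∀ j, k j ≠ 0) (b : κ → ι → ℤ)
    {X : Set (ι → ℂ)} (hX : Irred X) (ht : InTorus X) : dim (monoC k b '' X) ≤ dim X := by
  classical
  rw [monoC_eq]
  have h := dim_mono_le ((irred_singleton k).prod hX) (torus_prod hk ht)
    (fun j : κ => (Sum.elim (Pi.single j 1) (b j) : κ ⊕ ι → ℤ))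
  rwa [dim_prod (irred_singleton k) hX, dim_singleton, zero_add] at h

/-- `f` is a monomial with a constant factor. -/
def IsMonC (f : (ι → ℂ) → ℂ) : Prop :=
  ∃ (k : ℂ) (b : ι → ℤ), k ≠ 0 ∧ ∀ y, (∀ i, y i ≠ 0) → f y = k * chr y b

theorem IsMonC.const {k : ℂ} (hk : k ≠ 0) : IsMonC (fun _ : ι → ℂ => k) :=
  ⟨k, 0, hk, fun _ _ => by rw [chr_zero, mul_one]⟩

theorem IsMonC.coord (i : ι) : IsMonC (fun y : ι → ℂ => y i) := by
  classical
  exact ⟨1, Pi.single i 1, one_ne_zero, fun y _ => by rw [chr_single, one_mul]⟩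

theorem IsMonC.mul {f g : (ι → ℂ) → ℂ} (hf : IsMonC f) (hg : IsMonC g) :
    IsMonC (fun y => f y * g y) := by
  obtain ⟨k, a, hk, ha⟩ := hf
  obtain ⟨l, b, hl, hb⟩ := hg
  exact ⟨k * l, a + b, mul_ne_zero hk hl, fun y hy => by
    dsimp only
    rw [chr_add hy, ha y hy, hb y hy]
    ring⟩

theorem IsMonC.inv {f : (ι → ℂ) → ℂ} (hf : IsMonC f) : IsMonC (fun y => (f y)⁻¹) := by
  obtain ⟨k, a, hk, ha⟩ := hf
  exact ⟨k⁻¹, -a, inv_ne_zero hk, fun y hy => by
    dsimp only
    rw [chr_neg, ha y hy, mul_inv]⟩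

theorem IsMonC.pow {f : (ι → ℂ) → ℂ} (hf : IsMonC f) (n : ℕ) : IsMonC (fun y => f y ^ n) := by
  induction n with
  | zero =>
    simp only [pow_zero]
    exact IsMonC.const one_ne_zero
  | succ n ih =>
    simp only [pow_succ]
    exact ih.mul hf

theorem IsMonC.prod {σ : Type} (s : Finset σ) {f : σ → (ι → ℂ) → ℂ}
    (hf : ∀ i ∈ s, IsMonC (f i)) : IsMonC (fun y => ∏ i ∈ s, f i y) := by
  classical
  induction s using Finset.induction_on with
  | empty =>
    simp only [Finset.prod_empty]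
    exact IsMonC.const one_ne_zero
  | insert i s hi ih =>
    have h := (hf i (Finset.mem_insert_self i s)).mul
      (ih fun j hj => hf j (Finset.mem_insert_of_mem hj))
    have h1 : (fun y => ∏ j ∈ insert i s, f j y) = fun y => f i y * ∏ j ∈ s, f j y := by
      funext y
      rw [Finset.prod_insert hi]
    rw [h1]
    exact h

theorem IsMonC.ne_zero {f : (ι → ℂ) → ℂ} (hf : IsMonC f) {y : ι → ℂ} (hy : ∀ i, y i ≠ 0) :
    f y ≠ 0 := by
  obtain ⟨k, a, hk, ha⟩ := hf
  rw [ha y hy]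
  exact mul_ne_zero hk (chr_ne_zero hy _)

/-- A monomial which is constant on `U` is constant on `Y` if all constant characters of `U` are
constant on `Y`. -/
theorem IsMonC.transfer {f : (ι → ℂ) → ℂ} (hf : IsMonC f) {U Y : Set (ι → ℂ)} (hU : InTorus U)
    (hY : InTorus Y) (hne : U.Nonempty) (hle : constLat U hU ≤ constLat Y hY)
    (hI : idealOf Y ≤ idealOf U) {c : ℂ} (h : ∀ y ∈ U, f y = c) : ∀ y ∈ Y, f y = c := by
  obtain ⟨k, b, hk, hb⟩ := hf
  have h1 : b ∈ constLat U hU := ⟨k⁻¹ * c, fun y hy => by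
    show chr y b = k⁻¹ * c
    rw [← h y hy, hb y (hU y hy), inv_mul_cancel_left₀ hk]⟩
  obtain ⟨d, hd⟩ := hle h1
  obtain ⟨u, hu⟩ := hne
  have h2 := const_closure hY hU hI hd u hu
  intro y hy
  rw [hb y (hY y hy), hd y hy, ← h2, ← hb u (hU u hu)]
  exact h u hu

end

end Pool.Agent.T6.H15.HY
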