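import Pool.Agent.T6.H15.HY.Ind

/-!
# The defects of closed sets which contain the image
-/

set_option autoImplicit false

open MvPolynomial

namespace Pool.Agent.T6.H15.HY

open Pool.Agent.T6.H15.ZP Pool.Agent.T6.H15.MZ Pool.Agent.T6.H15.UE

section

variable {σ : Type} [Fintype σ] [DecidableEq σ] {ι Ch : Type} [Fintype ι] [Fintype Ch]
  {H : Hp σ} {E : Dat ι Ch} {W : Set (ι → ℂ)} {s : Finset ι}

/-- the sums, terms and coordinates -/
abbrev Zi (E : Dat ι Ch) : Type := ι ⊕ (Ch ⊕ (Σ c : Ch, Fin (E.M c + 1)))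

/-- the sums, terms and coordinates -/
noncomputable def zf (H : Hp σ) (E : Dat ι Ch) : Zi E → (Gi E × σ → ℂ) → ℂ
  | Sum.inl i => Xm H E i
  | Sum.inr (Sum.inl c) => Qm H E c
  | Sum.inr (Sum.inr ⟨c, l⟩) => Pm H E c l

theorem isMon_zf (j : Zi E) : IsMonC (zf H E j) := by
  rcases j with i | c | ⟨c, l⟩
  · exact isMon_Xm H E i
  · exact isMon_Qm H E c
  · exact isMon_Pm H E c l

/-- the coordinates of the gates, from the sums -/
noncomputable def back (H : Hp σ) (E : Dat ι Ch) : Gi E × σ → (Zi E → ℂ) → ℂ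
  | (Sum.inl c, i) => fun z => (H.al i)⁻¹ * (if i = H.i0 then z (Sum.inr (Sum.inr ⟨c, 0⟩)) else
      if i = H.i1 then z (Sum.inr (Sum.inl c)) else H.dm)
  | (Sum.inr ⟨c, l⟩, i) => fun z => (H.al i)⁻¹ * ((if i = H.i0 then
      z (Sum.inr (Sum.inr ⟨c, l.castSucc⟩)) else if i = H.i1 then
        E.a c l * ∏ j, z (Sum.inl j) ^ (E.m c l j) else H.dm * E.ze c ^ (l : ℕ)) *
          (z (Sum.inr (Sum.inr ⟨c, l.succ⟩)))⁻¹)

theorem isMon_back (h : Sys H E W s) (p : Gi E × σ) : IsMonC (back H E p) := by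
  obtain ⟨c | ⟨c, l⟩, i⟩ := p
  · refine (IsMonC.const (inv_ne_zero (H.hal i))).mul ?_
    by_cases h0 : i = H.i0
    · simp only [h0, if_true]
      exact IsMonC.coord _
    · by_cases h1 : i = H.i1
      · simp only [h1, H.ne.symm, if_false, if_true]
        exact IsMonC.coord _
      · simp only [h0, h1, if_false]
        exact IsMonC.const H.hdm
  · refine (IsMonC.const (inv_ne_zero (H.hal i))).mul (IsMonC.mul ?_ (IsMonC.coord _).inv)
    by_cases h0 : i = H.i0
    · simp only [h0, if_true]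
      exact IsMonC.coord _
    · by_cases h1 : i = H.i1
      · simp only [h1, H.ne.symm, if_false, if_true]
        exact (IsMonC.const (h.ha c l)).mul (IsMonC.prod _ fun j _ => (IsMonC.coord _).pow _)
      · simp only [h0, h1, if_false]
        exact IsMonC.const (mul_ne_zero H.hdm (pow_ne_zero _ (h.hze c).ne_zero))

section Rel

variable {Y : Set (Gi E × σ → ℂ)}

theorem eval_monomial' (x : ι → ℂ) (m : ι →₀ ℕ) (a : ℂ) :
    eval x (monomial m a) = a * ∏ i, x i ^ m i := by
  rw [eval_monomial, Finsupp.prod_fintype]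
  intro i
  exact pow_zero _

theorem rel_D (h : Sys H E W s) (hYt : InTorus Y) (hI : idealOf Y ≤ idealOf (image H E W))
    (hle : constLat (image H E W) (image_torus h) ≤ constLat Y hYt) {y : Gi E × σ → ℂ}
    (hy : y ∈ Y) (c : Ch) (l : Fin (E.M c)) {i : σ} (h0 : i ≠ H.i0) (h1 : i ≠ H.i1) :
    Dm H E c l i y = H.dm * E.ze c ^ (l : ℕ) := by
  refine (isMon_Dm H E c l i).transfer (image_torus h) hYt (irred_image h).nonempty hle hI ?_ y hy
  rintro _ ⟨z, ⟨-, hg⟩, rfl⟩
  exact Dm_phi hg c l h0 h1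

theorem rel_T (h : Sys H E W s) (hYt : InTorus Y) (hI : idealOf Y ≤ idealOf (image H E W))
    (hle : constLat (image H E W) (image_torus h) ≤ constLat Y hYt) {y : Gi E × σ → ℂ}
    (hy : y ∈ Y) (c : Ch) (l : Fin (E.M c)) :
    Tm H E c l y = eval (fun i => Xm H E i y) (monomial (E.m c l) (E.a c l)) := by
  have hm : IsMonC (fun y => Tm H E c l y * (∏ i, Xm H E i y ^ (E.m c l i))⁻¹) :=
    (isMon_Tm H E c l).mul (IsMonC.prod _ fun i _ => (isMon_Xm H E i).pow _).inv
  have h1 := hm.transfer (image_torus h) hYt (irred_image h).nonempty hle hI (c := E.a c l) (by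
    rintro _ ⟨z, ⟨hz, hg⟩, rfl⟩
    rw [Tm_phi hg c l, eval_monomial']
    simp only [Xm_phi h hg]
    have h2 : (∏ i, z (Sum.inl i) ^ (E.m c l i)) ≠ 0 :=
      Finset.prod_ne_zero_iff.2 fun i _ => pow_ne_zero _ (h.tor _ hz.1 i)
    exact mul_inv_cancel_right₀ h2 _) y hy
  rw [eval_monomial', ← h1]
  have h2 : (∏ i, Xm H E i y ^ (E.m c l i)) ≠ 0 :=
    Finset.prod_ne_zero_iff.2 fun i _ => pow_ne_zero _ ((isMon_Xm H E i).ne_zero (hYt y hy))
  exact (inv_mul_cancel_right₀ h2 _).symm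

theorem rel_P (h : Sys H E W s) (hYt : InTorus Y) (hYh : Y ⊆ hyper H.al (Gi E))
    (hI : idealOf Y ≤ idealOf (image H E W))
    (hle : constLat (image H E W) (image_torus h) ≤ constLat Y hYt) {y : Gi E × σ → ℂ}
    (hy : y ∈ Y) (c : Ch) (l : ℕ) (hl : l ≤ E.M c) :
    Pm H E c l y = Pm H E c 0 y + eval (fun i => Xm H E i y) (E.ps H c l) := by
  induction l with
  | zero => rw [ps_zero, map_zero, add_zero]
  | succ l ih =>
    have h1 := Pm_add (hYh hy) c ⟨l, hl⟩ (fun i h0 h1 => rel_D h hYt hI hle hy c ⟨l, hl⟩ h0 h1)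
    dsimp only at h1
    rw [h1, ih (by omega), ps_succ, map_add, map_add, eval_C,
      rel_T h hYt hI hle hy c ⟨l, hl⟩]
    dsimp only
    unfold Hp.del
    ring

theorem rel_Q (h : Sys H E W s) (hYt : InTorus Y) (hYh : Y ⊆ hyper H.al (Gi E))
    (hI : idealOf Y ≤ idealOf (image H E W))
    (hle : constLat (image H E W) (image_torus h) ≤ constLat Y hYt) {y : Gi E × σ → ℂ}
    (hy : y ∈ Y) (c : Ch) : Qm H E c y = H.kap - Pm H E c 0 y := by
  have h1 := (hYh hy).2 (Sum.inl c)
  rw [H.sum (Pm H E c 0 y) (Qm H E c y) H.dm (fun i => H.al i * y (Sum.inl c, i))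
    (Pm_zero c y).symm rfl] at h1
  · unfold Hp.kap Hp.del
    linear_combination h1
  · intro i h0 h1
    have hm : IsMonC (fun y : Gi E × σ → ℂ => H.al i * y (Sum.inl c, i)) :=
      (IsMonC.const (H.hal i)).mul (IsMonC.coord _)
    refine hm.transfer (image_torus h) hYt (irred_image h).nonempty hle hI ?_ y hy
    rintro _ ⟨z, ⟨-, hg⟩, rfl⟩
    rw [al_phi, nu, if_neg h0, if_neg h1, dn, map_one, div_one, eval_C]

theorem rel_cl (h : Sys H E W s) (hYt : InTorus Y) (hYh : Y ⊆ hyper H.al (Gi E))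
    (hI : idealOf Y ≤ idealOf (image H E W))
    (hle : constLat (image H E W) (image_torus h) ≤ constLat Y hYt) {y : Gi E × σ → ℂ}
    (hy : y ∈ Y) (c : Ch) (hc : E.L c + 1 = E.M c) :
    eval (fun i => Xm H E i y) (E.ps H c (E.M c)) = 0 := by
  have hps : E.ps H c (E.M c) ∈ idealOf W := by
    rcases h.hcl c with h1 | h1
    · omega
    · exact h1.2
  have hm : IsMonC (fun y => Pm H E c (E.M c) y * (Pm H E c 0 y)⁻¹) :=
    (isMon_Pm H E c _).mul (isMon_Pm H E c 0).inv
  have h1 := hm.transfer (image_torus h) hYt (irred_image h).nonempty hle hI (c := 1) (by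
    rintro _ ⟨z, ⟨hz, hg⟩, rfl⟩
    rw [Pm_phi hg c _ le_rfl, Pm_phi hg c 0 (Nat.zero_le _), eval_PP, eval_PP_zero,
      mem_idealOf.1 hps _ hz.1, add_zero]
    have h2 := (eval_good hg c).2 0 (Nat.zero_le _)
    rw [eval_PP_zero] at h2
    exact mul_inv_cancel₀ h2) y hy
  have h2 : Pm H E c 0 y ≠ 0 := (isMon_Pm H E c 0).ne_zero (hYt y hy)
  have h3 := rel_P h hYt hYh hI hle hy c (E.M c) le_rfl
  have h4 : Pm H E c (E.M c) y = Pm H E c 0 y := by
    rw [← div_eq_mul_inv, div_eq_one_iff_eq h2] at h1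
    exact h1
  rw [h4] at h3
  linear_combination -h3

theorem back_zf (h : Sys H E W s) (hYt : InTorus Y) (hI : idealOf Y ≤ idealOf (image H E W))
    (hle : constLat (image H E W) (image_torus h) ≤ constLat Y hYt) {y : Gi E × σ → ℂ}
    (hy : y ∈ Y) (p : Gi E × σ) : back H E p (fun j => zf H E j y) = y p := by
  obtain ⟨c | ⟨c, l⟩, i⟩ := p
  · rw [back]
    dsimp only
    have key : ∀ v, v = H.al i * y (Sum.inl c, i) → (H.al i)⁻¹ * v = y (Sum.inl c, i) := by
      rintro v rfl
      exact inv_mul_cancel_left₀ (H.hal i) _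
    apply key
    by_cases h0 : i = H.i0
    · rw [if_pos h0, h0]
      exact Pm_zero c y
    · by_cases h1 : i = H.i1
      · rw [if_neg h0, if_pos h1, h1]
        rfl
      · rw [if_neg h0, if_neg h1]
        have hm : IsMonC (fun y : Gi E × σ → ℂ => H.al i * y (Sum.inl c, i)) :=
          (IsMonC.const (H.hal i)).mul (IsMonC.coord _)
        refine (hm.transfer (image_torus h) hYt (irred_image h).nonempty hle hI ?_ y hy).symm
        rintro _ ⟨z, ⟨-, hg⟩, rfl⟩
        rw [al_phi, nu, if_neg h0, if_neg h1, dn, map_one, div_one, eval_C]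
  · rw [back]
    dsimp only
    have hP : Pm H E c (l + 1) y ≠ 0 := (isMon_Pm H E c _).ne_zero (hYt y hy)
    have hz : zf H E (Sum.inr (Sum.inr ⟨c, l.succ⟩)) y = Pm H E c (l + 1) y := by
      rw [zf, Fin.val_succ]
    rw [hz]
    have key : ∀ v, v = (H.al i * y (Sum.inr ⟨c, l⟩, i)) * Pm H E c (l + 1) y →
        (H.al i)⁻¹ * (v * (Pm H E c (l + 1) y)⁻¹) = y (Sum.inr ⟨c, l⟩, i) := by
      rintro v rfl
      rw [mul_inv_cancel_right₀ hP, inv_mul_cancel_left₀ (H.hal i)]
    apply key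
    by_cases h0 : i = H.i0
    · rw [if_pos h0, h0]
      have h2 := Pm_succ (H := H) (hYt y hy) c l
      unfold rv at h2
      rw [dif_pos l.2] at h2
      exact h2.symm
    · by_cases h1 : i = H.i1
      · rw [if_neg h0, if_pos h1, h1]
        have h2 := rel_T h hYt hI hle hy c l
        rw [eval_monomial'] at h2
        have h3 : E.a c l * ∏ j, zf H E (Sum.inl j) y ^ (E.m c l j) = Tm H E c l y := by
          rw [h2]
          rfl
        rw [h3]
        unfold Tm tv
        rw [dif_pos l.2]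
      · rw [if_neg h0, if_neg h1]
        exact (rel_D h hYt hI hle hy c l h0 h1).symm

end Rel

/-- the coordinates stay independent -/
theorem indep_Z (h : Sys H E W s) {Y : Set (Gi E × σ → ℂ)} (hYt : InTorus Y)
    (hI : idealOf Y ≤ idealOf (image H E W)) {k : Zi E → ℂ} {b : Zi E → Gi E × σ → ℤ}
    (hb : ∀ (j : Zi E) (y : Gi E × σ → ℂ), (∀ i, y i ≠ 0) → zf H E j y = k j * chr y (b j)) :
    Indep (monoC k b '' Y) (fun i : s => (Sum.inl (i : ι) : Zi E)) := by
  intro q hq
  apply h.ind q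
  intro w hw
  obtain ⟨F, hF⟩ := exists_pullC (fun i : s => k (Sum.inl (i : ι)))
    (fun i : s => b (Sum.inl (i : ι))) q
  have hcomp : ∀ y : Gi E × σ → ℂ, monoC (fun i : s => k (Sum.inl (i : ι)))
      (fun i : s => b (Sum.inl (i : ι))) y = fun i : s => monoC k b y (Sum.inl (i : ι)) :=
    fun y => rfl
  have hF1 : F ∈ idealOf Y := by
    rw [mem_idealOf]
    intro y hy
    rw [hF y (hYt y hy), hcomp]
    exact hq (monoC k b y) (Set.mem_image_of_mem _ hy)
  obtain ⟨x, -, hx, -⟩ := exists_good (H := H) (E := E) (w := w) (F := 1) (by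
    rw [map_one]
    exact one_ne_zero)
  have hmem : phi H E (Sum.elim w x) ∈ image H E W :=
    Set.mem_image_of_mem _ ⟨elim_mem hw (Set.mem_univ x), hx⟩
  have h2 := mem_idealOf.1 (hI hF1) _ hmem
  rw [hF _ (image_torus h _ hmem), hcomp] at h2
  have h3 : (fun i : s => monoC k b (phi H E (Sum.elim w x)) (Sum.inl (i : ι))) =
      fun i : s => w i := by
    funext i
    have h4 := hb (Sum.inl (i : ι)) _ (image_torus h _ hmem)
    have h5 : zf H E (Sum.inl (i : ι)) (phi H E (Sum.elim w x)) = w i := by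
      rw [zf, Xm_phi h hx]
      rfl
    unfold monoC
    rw [← h4, h5]
  rw [h3] at h2
  exact h2

/-- The dimension. -/
theorem dim_le (h : Sys H E W s) {Y : Set (Gi E × σ → ℂ)} (hY : Irred Y) (hYt : InTorus Y)
    (hYh : Y ⊆ hyper H.al (Gi E)) (hI : idealOf Y ≤ idealOf (image H E W))
    (hle : constLat (image H E W) (image_torus h) ≤ constLat Y hYt) :
    dim Y ≤ s.card + Fintype.card Ch := by
  classical
  have hm := fun j : Zi E => isMon_zf (H := H) j
  choose k b hk hb using hm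
  have hm' := fun p : Gi E × σ => isMon_back h p
  choose k' b' hk' hb' using hm'
  set Z : Set (Zi E → ℂ) := monoC k b '' Y with hZ
  have hzf : ∀ y ∈ Y, monoC k b y = fun j => zf H E j y := by
    intro y hy
    funext j
    exact (hb j y (hYt y hy)).symm
  have hZi : Irred Z := irred_monoC hk b hY hYt
  have hZt : InTorus Z := by
    rintro _ ⟨y, hy, rfl⟩ j
    exact monoC_ne_zero hk b (hYt y hy) j
  have hYZ : monoC k' b' '' Z = Y := by
    rw [hZ, ← Set.image_comp]
    have h1 : ∀ y ∈ Y, (monoC k' b' ∘ monoC k b) y = y := by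
      intro y hy
      funext p
      show k' p * chr (monoC k b y) (b' p) = y p
      rw [← hb' p (monoC k b y) (fun j => monoC_ne_zero hk b (hYt y hy) j), hzf y hy]
      exact back_zf h hYt hI hle hy p
    ext y
    constructor
    · rintro ⟨y, hy, rfl⟩
      rw [h1 y hy]
      exact hy
    · intro hy
      exact ⟨y, hy, h1 y hy⟩
  have hdim : dim Y ≤ dim Z := by
    have h1 := dim_monoC_le hk' b' hZi hZt
    rwa [hYZ] at h1
  refine hdim.trans ?_
  -- identities on `Z`
  have hZ1 : ∀ z ∈ Z, ∀ c (l : Fin (E.M c + 1)), z (Sum.inr (Sum.inr ⟨c, l⟩)) =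
      z (Sum.inr (Sum.inr ⟨c, 0⟩)) + eval (fun i => z (Sum.inl i)) (E.ps H c l) := by
    rintro _ ⟨y, hy, rfl⟩ c l
    rw [hzf y hy]
    exact rel_P h hYt hYh hI hle hy c l (by have := l.2; omega)
  have hZ2 : ∀ z ∈ Z, ∀ c, z (Sum.inr (Sum.inl c)) = H.kap - z (Sum.inr (Sum.inr ⟨c, 0⟩)) := by
    rintro _ ⟨y, hy, rfl⟩ c
    rw [hzf y hy]
    exact rel_Q h hYt hYh hI hle hy c
  have hZ3 : ∀ z ∈ Z, ∀ c, E.L c + 1 = E.M c →
      eval (fun i => z (Sum.inl i)) (E.ps H c (E.M c)) = 0 := by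
    rintro _ ⟨y, hy, rfl⟩ c hc
    rw [hzf y hy]
    exact rel_cl h hYt hYh hI hle hy c hc
  have hZ4 : Indep Z (fun i : s => (Sum.inl (i : ι) : Zi E)) := indep_Z h hYt hI hb
  -- the transcendence basis
  have hZp : (idealOf Z).IsPrime := hZi
  set QB := MvPolynomial (Zi E) ℂ ⧸ idealOf Z with hQB
  set z_ : Zi E → QB := fun i => Ideal.Quotient.mk (idealOf Z) (MvPolynomial.X i) with hz_
  set T0 : Finset (Zi E) := (s.image fun i => (Sum.inl i : Zi E)) ∪
    ((Finset.univ : Finset Ch).image fun c => (Sum.inr (Sum.inr ⟨c, 0⟩) : Zi E)) with hT0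
  set A0 := Algebra.adjoin ℂ (z_ '' (T0 : Set _)) with hA0
  have hmk : ∀ q q' : MvPolynomial (Zi E) ℂ, (∀ z ∈ Z, eval z q = eval z q') →
      Ideal.Quotient.mk (idealOf Z) q = Ideal.Quotient.mk (idealOf Z) q' := by
    intro q q' hq
    rw [Ideal.Quotient.eq, mem_idealOf]
    intro y hy
    rw [map_sub, hq y hy, sub_self]
  have halgC : ∀ d : ℂ, IsAlgebraic A0 (Ideal.Quotient.mk (idealOf Z) (C d) : QB) := by
    intro d
    have h1 : (Ideal.Quotient.mk (idealOf Z) (C d) : QB) =
        algebraMap A0 QB (algebraMap ℂ A0 d) := rfl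
    rw [h1]
    exact isAlgebraic_algebraMap _
  have hS0 : ∀ a ∈ s, z_ (Sum.inl a) ∈ z_ '' (T0 : Set _) := by
    intro a ha
    refine ⟨_, ?_, rfl⟩
    rw [hT0, Finset.coe_union]
    left
    rw [Finset.mem_coe, Finset.mem_image]
    exact ⟨a, ha, rfl⟩
  have hM0 : ∀ c, z_ (Sum.inr (Sum.inr ⟨c, 0⟩)) ∈ z_ '' (T0 : Set _) := by
    intro c
    refine ⟨_, ?_, rfl⟩
    rw [hT0, Finset.coe_union]
    right
    rw [Finset.mem_coe, Finset.mem_image]
    exact ⟨c, Finset.mem_univ _, rfl⟩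
  have halgM : ∀ c, IsAlgebraic A0 (z_ (Sum.inr (Sum.inr ⟨c, 0⟩))) := fun c =>
    isAlgebraic_algebraMap (⟨_, Algebra.subset_adjoin (hM0 c)⟩ : A0)
  have halgX : ∀ a, IsAlgebraic A0 (z_ (Sum.inl a)) := by
    intro a
    by_cases ha : a ∈ s
    · exact isAlgebraic_algebraMap (⟨_, Algebra.subset_adjoin (hS0 a ha)⟩ : A0)
    obtain ⟨c, hc, p, hp, hps⟩ := h.dep a ha
    have hind : AlgebraicIndependent ℂ (fun i : s => z_ (Sum.inl (i : ι))) :=
      (indep_iff _ _).1 hZ4
    have hnot : ¬ AlgebraicIndependent ℂ (fun o : Option s =>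
        o.elim (z_ (Sum.inl a)) fun i => z_ (Sum.inl (i : ι))) := by
      rw [algebraicIndependent_iff]
      push Not
      refine ⟨p, ?_, hp⟩
      have h1 : aeval (fun o : Option s => o.elim (z_ (Sum.inl a))
          fun i => z_ (Sum.inl (i : ι))) p =
          Ideal.Quotient.mk (idealOf Z) (rename (fun o : Option s =>
            (Sum.inl (o.elim a fun i => (i : ι)) : Zi E)) p) := by
        rw [← aeval_mk Z (fun o : Option s => (Sum.inl (o.elim a fun i => (i : ι)) : Zi E))]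
        congr 1
        congr 1
        funext o
        rcases o with - | o <;> rfl
      rw [h1, Ideal.Quotient.eq_zero_iff_mem, mem_idealOf]
      intro z hz
      rw [eval_rename]
      have h2 := hZ3 z hz c hc
      rw [hps, eval_rename] at h2
      exact h2
    have halg : IsAlgebraic (Algebra.adjoin ℂ
        (Set.range fun i : s => z_ (Sum.inl (i : ι)))) (z_ (Sum.inl a)) := by
      by_contra hcon
      exact hnot ((hind.option_iff_transcendental _).2 hcon)
    refine halg.adjoin_of_forall_isAlgebraic ?_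
    rintro _ ⟨⟨i, rfl⟩, hi⟩
    exact absurd (hS0 i i.2) hi
  have halgP : ∀ q : MvPolynomial ι ℂ, IsAlgebraic A0 (Ideal.Quotient.mk (idealOf Z)
      (rename (fun a => (Sum.inl a : Zi E)) q) : QB) := by
    intro q
    induction q using MvPolynomial.induction_on with
    | C d =>
      rw [rename_C]
      exact halgC d
    | add q q' hq hq' =>
      rw [map_add, map_add]
      exact hq.add hq'
    | mul_X q i hq =>
      rw [map_mul, map_mul, rename_X]
      exact hq.mul (halgX i)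
  obtain ⟨S, hS1, hS2, hS3⟩ := exists_indep_in hZi (T0 : Set _) (by
    intro i
    show IsAlgebraic A0 (z_ i)
    rcases i with a | c | ⟨c, l⟩
    · exact halgX a
    · have h2 : z_ (Sum.inr (Sum.inl c)) = Ideal.Quotient.mk (idealOf Z) (C H.kap) -
          z_ (Sum.inr (Sum.inr ⟨c, 0⟩)) := by
        rw [hz_]
        dsimp only
        rw [← map_sub]
        apply hmk
        intro z hz
        rw [map_sub, eval_X, eval_X, eval_C]
        exact hZ2 z hz c
      rw [h2]
      exact (halgC _).sub (halgM c)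
    · have h2 : z_ (Sum.inr (Sum.inr ⟨c, l⟩)) = z_ (Sum.inr (Sum.inr ⟨c, 0⟩)) +
          Ideal.Quotient.mk (idealOf Z) (rename (fun a => (Sum.inl a : Zi E)) (E.ps H c l)) := by
        rw [hz_]
        dsimp only
        rw [← map_add]
        apply hmk
        intro z hz
        rw [map_add, eval_X, eval_X, eval_rename]
        exact hZ1 z hz c l
      rw [h2]
      exact (halgM c).add (halgP _))
  rw [← hS3]
  have c1 := Finset.card_le_card (fun i hi => hS1 i hi : S ⊆ T0)
  have c2 : T0.card ≤ s.card + Fintype.card Ch := by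
    rw [hT0]
    refine (Finset.card_union_le _ _).trans (add_le_add Finset.card_image_le ?_)
    exact Finset.card_image_le.trans (by rw [Finset.card_univ])
  exact c1.trans c2

theorem hyper_closure {κ : Type} {al : σ → ℂ} {Y Y' : Set (κ × σ → ℂ)} (hY : Y ⊆ hyper al κ)
    (hY' : InTorus Y') (hI : idealOf Y ≤ idealOf Y') : Y' ⊆ hyper al κ := by
  intro y hy
  refine ⟨hY' y hy, fun k => ?_⟩
  have h1 : (∑ i, C (al i) * X (k, i) - 1 : MvPolynomial (κ × σ) ℂ) ∈ idealOf Y := by
    rw [mem_idealOf]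
    intro z hz
    rw [map_sub, map_sum, map_one, sub_eq_zero]
    simp only [map_mul, eval_C, eval_X]
    exact (hY hz).2 k
  have h2 := mem_idealOf.1 (hI h1) y hy
  rw [map_sub, map_sum, map_one, sub_eq_zero] at h2
  simp only [map_mul, eval_C, eval_X] at h2
  exact h2

/-- **The estimate.** -/
theorem upper (h : Sys H E W s) {Y : Set (Gi E × σ → ℂ)} (hY : Irred Y) (hYt : InTorus Y)
    (hYh : Y ⊆ hyper H.al (Gi E)) (hI : idealOf Y ≤ idealOf (image H E W)) :
    dim Y + Module.finrank ℤ (tl Y hYt) + Fintype.card (Gi E) ≤ Fintype.card (Gi E × σ) := by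
  obtain ⟨Y1, ht1, a1, a2, a3, a4, a5⟩ := exists_full_const (irred_image h) (image_torus h) _
    Y hYt hY hI (Nat.le_add_left _ _)
  have b1 := dim_le h a1 ht1 (hyper_closure hYh ht1 a2) a3 a4
  have b2 := rank_const h
  have b3 := Submodule.finrank_mono (constLat_le ht1 (image_torus h) a3)
  have b4 := Submodule.finrank_mono (tl_le_constLat hYt)
  have b5 := h.card
  rw [card_Nm] at b2
  have b6 := card_Gi (E := E)
  omega

end

end Pool.Agent.T6.H15.HY
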